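import Mathlib

set_option autoImplicit false

namespace Pool.Agent.H30.CB

/-- half of the square root of three -/
noncomputable def hh : ℝ := √3 / 2

lemma hh_sq : hh ^ 2 = 3 / 4 := by
  unfold hh; rw [div_pow, Real.sq_sqrt (by norm_num)]; norm_num

lemma hh_mul : hh * hh = 3 / 4 := by rw [← sq]; exact hh_sq

lemma hh_pos : 0 < hh := by unfold hh; positivity

lemma hh_lo : (866 : ℝ) / 1000 < hh := by
  have h := hh_sq
  have hp := hh_pos
  nlinarith

lemma hh_hi : hh < 8661 / 10000 := by
  have h := hh_sq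
  have hp := hh_pos
  nlinarith

/-- the real scalar product of two complex numbers -/
noncomputable def dt (u v : ℂ) : ℝ := u.re * v.re + u.im * v.im

lemma dt_add_left (u v w : ℂ) : dt (u + v) w = dt u w + dt v w := by
  simp only [dt, Complex.add_re, Complex.add_im]; ring
lemma dt_sub_left (u v w : ℂ) : dt (u - v) w = dt u w - dt v w := by
  simp only [dt, Complex.sub_re, Complex.sub_im]; ring
lemma dt_add_right (u v w : ℂ) : dt u (v + w) = dt u v + dt u w := by
  simp only [dt, Complex.add_re, Complex.add_im]; ring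
lemma dt_sub_right (u v w : ℂ) : dt u (v - w) = dt u v - dt u w := by
  simp only [dt, Complex.sub_re, Complex.sub_im]; ring
lemma dt_comm (u v : ℂ) : dt u v = dt v u := by
  simp only [dt]; ring
lemma dt_zero_left (v : ℂ) : dt 0 v = 0 := by simp [dt]
lemma dt_zero_right (v : ℂ) : dt v 0 = 0 := by simp [dt]
lemma dt_smul_left (a : ℝ) (u v : ℂ) : dt (a • u) v = a * dt u v := by
  simp only [dt, Complex.smul_re, Complex.smul_im, smul_eq_mul]; ring
lemma dt_smul_right (a : ℝ) (u v : ℂ) : dt u (a • v) = a * dt u v := by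
  simp only [dt, Complex.smul_re, Complex.smul_im, smul_eq_mul]; ring
lemma dt_neg_right (u v : ℂ) : dt u (-v) = - dt u v := by
  simp only [dt, Complex.neg_re, Complex.neg_im]; ring
lemma dt_neg_left (u v : ℂ) : dt (-u) v = - dt u v := by
  simp only [dt, Complex.neg_re, Complex.neg_im]; ring

lemma dt_self (z : ℂ) : dt z z = ‖z‖ ^ 2 := by
  rw [Complex.sq_norm, Complex.normSq_apply]; rfl

lemma dt_self_nonneg (z : ℂ) : 0 ≤ dt z z := by rw [dt_self]; positivity

lemma one_le_norm_iff (z : ℂ) : 1 ≤ ‖z‖ ↔ 1 ≤ dt z z := by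
  rw [dt_self]
  constructor
  · intro h; nlinarith
  · intro h
    by_contra hc
    push Not at hc
    nlinarith [norm_nonneg z]

lemma norm_eq_one_iff (z : ℂ) : ‖z‖ = 1 ↔ dt z z = 1 := by
  rw [dt_self]
  constructor
  · intro h; rw [h]; norm_num
  · intro h
    nlinarith [norm_nonneg z, sq_nonneg (‖z‖ - 1)]

/-- the matrices of the six elements of the dihedral group generated by the reflections in the
lines of directions `0` and `60` degrees -/
noncomputable def mA : Fin 6 → ℝ := ![1, 1, -1/2, -1/2, -1/2, -1/2]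
noncomputable def mB : Fin 6 → ℝ := ![0, 0, -hh, hh, hh, -hh]
noncomputable def mC : Fin 6 → ℝ := ![0, 0, hh, hh, -hh, -hh]
noncomputable def mD : Fin 6 → ℝ := ![1, -1, -1/2, 1/2, -1/2, 1/2]

/-- the action of the dihedral group: `0` is the identity, `1` the reflection in the real axis,
`3` the reflection in the line of direction `60` degrees -/
noncomputable def act (g : Fin 6) (z : ℂ) : ℂ :=
  ⟨mA g * z.re + mB g * z.im, mC g * z.re + mD g * z.im⟩

@[simp] lemma act_re (g : Fin 6) (z : ℂ) : (act g z).re = mA g * z.re + mB g * z.im := rfl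
@[simp] lemma act_im (g : Fin 6) (z : ℂ) : (act g z).im = mC g * z.re + mD g * z.im := rfl

lemma act_zero_id (z : ℂ) : act 0 z = z := by
  apply Complex.ext <;> simp [mA, mB, mC, mD]

lemma act_add (g : Fin 6) (u v : ℂ) : act g (u + v) = act g u + act g v := by
  apply Complex.ext <;> simp <;> ring
lemma act_sub (g : Fin 6) (u v : ℂ) : act g (u - v) = act g u - act g v := by
  apply Complex.ext <;> simp <;> ring
lemma act_neg (g : Fin 6) (u : ℂ) : act g (-u) = - act g u := by
  apply Complex.ext <;> simp <;> ring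
lemma act_smul (g : Fin 6) (a : ℝ) (u : ℂ) : act g (a • u) = a • act g u := by
  apply Complex.ext <;> simp <;> ring
lemma act_zero (g : Fin 6) : act g 0 = 0 := by
  apply Complex.ext <;> simp

lemma dt_act (g : Fin 6) (u v : ℂ) : dt (act g u) (act g v) = dt u v := by
  have h := hh_sq
  fin_cases g <;> simp [dt, mA, mB, mC, mD] <;>
    first
      | ring1
      | linear_combination (u.re * v.re + u.im * v.im) * h

lemma norm_act (g : Fin 6) (u : ℂ) : ‖act g u‖ = ‖u‖ := by
  have h := dt_act g u u
  rw [dt_self, dt_self] at h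
  exact (sq_eq_sq₀ (norm_nonneg _) (norm_nonneg _)).1 h

lemma norm_act_sub (g : Fin 6) (u v : ℂ) : ‖act g u - act g v‖ = ‖u - v‖ := by
  rw [← act_sub, norm_act]

/-- the multiplication table -/
def mulT : Fin 6 → Fin 6 → Fin 6 :=
  ![![0,1,2,3,4,5], ![1,0,5,4,3,2], ![2,3,4,5,0,1], ![3,2,1,0,5,4], ![4,5,0,1,2,3],
    ![5,4,3,2,1,0]]

/-- inverses -/
def invT : Fin 6 → Fin 6 := ![0,1,4,3,2,5]

lemma act_act (a b : Fin 6) (z : ℂ) : act a (act b z) = act (mulT a b) z := by
  have h := hh_sq
  fin_cases a <;> fin_cases b <;> apply Complex.ext <;>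
    simp [mA, mB, mC, mD, mulT] <;>
    first
      | ring1
      | linear_combination (z.re) * h
      | linear_combination (z.im) * h
      | linear_combination (-z.re) * h
      | linear_combination (-z.im) * h

lemma mulT_inv (a : Fin 6) : mulT (invT a) a = 0 := by
  fin_cases a <;> rfl

lemma mulT_inv_eq (a b : Fin 6) (h : mulT (invT a) b = 0) : b = a := by
  revert h; revert a b; decide

lemma act_inv_act (a : Fin 6) (z : ℂ) : act (invT a) (act a z) = z := by
  rw [act_act, mulT_inv, act_zero_id]

lemma act_injective (a : Fin 6) : Function.Injective (act a) := by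
  intro x y h
  have := congrArg (act (invT a)) h
  rwa [act_inv_act, act_inv_act] at this

/-- right multiplication by the reflection in the real axis -/
def m0 : Fin 6 → Fin 6 := ![1,0,3,2,5,4]
/-- right multiplication by the reflection in the line of direction 60 degrees -/
def m6 : Fin 6 → Fin 6 := ![3,4,5,0,1,2]

lemma act_m0 (g : Fin 6) (z : ℂ) : act (m0 g) z = act g (act 1 z) := by
  rw [act_act]; congr 1; revert g; decide
lemma act_m6 (g : Fin 6) (z : ℂ) : act (m6 g) z = act g (act 3 z) := by
  rw [act_act]; congr 1; revert g; decide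
lemma m0_m0 (g : Fin 6) : m0 (m0 g) = g := by revert g; decide
lemma m6_m6 (g : Fin 6) : m6 (m6 g) = g := by revert g; decide

lemma sum_m0 (φ : Fin 6 → ℝ) : ∑ g, φ (m0 g) = ∑ g, φ g := by
  simp only [Fin.sum_univ_six, m0]
  simp
  ring
lemma sum_m6 (φ : Fin 6 → ℝ) : ∑ g, φ (m6 g) = ∑ g, φ g := by
  simp only [Fin.sum_univ_six, m6]
  simp
  ring

/-- the inward normal of the wall of direction 60 degrees -/
noncomputable def nw : ℂ := ⟨hh, -(1/2)⟩
/-- the unit vector of direction 60 degrees -/
noncomputable def ew : ℂ := ⟨1/2, hh⟩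

@[simp] lemma nw_re : nw.re = hh := rfl
@[simp] lemma nw_im : nw.im = -(1/2) := rfl
@[simp] lemma ew_re : ew.re = 1/2 := rfl
@[simp] lemma ew_im : ew.im = hh := rfl

lemma dt_nw (z : ℂ) : dt nw z = hh * z.re - z.im / 2 := by
  simp only [dt, nw_re, nw_im]; ring

lemma act3_nw : act 3 nw = -nw := by
  have h := hh_sq
  apply Complex.ext <;> simp [mA, mB, mC, mD] <;>
    first | ring1 | linear_combination h | linear_combination (-h)

lemma act3_ew : act 3 ew = ew := by
  have h := hh_sq
  apply Complex.ext <;> simp [mA, mB, mC, mD] <;>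
    first | ring1 | linear_combination h | linear_combination (-h)

lemma act3_eq (z : ℂ) : act 3 z = z - (2 * dt nw z) • nw := by
  have h := hh_sq
  apply Complex.ext
  · simp [mA, mB, mC, mD, dt_nw]; linear_combination (2 * z.re) * h
  · simp [mA, mB, mC, mD, dt_nw]; ring

lemma act1_eq (z : ℂ) : act 1 z = ⟨z.re, -z.im⟩ := by
  apply Complex.ext <;> simp [mA, mB, mC, mD]

/-- folding inequality: the other images of a point of the chamber are further away -/
lemma fold_le (g : Fin 6) (x y : ℂ) (hx : 0 ≤ x.im) (hy : 0 ≤ y.im) (hx' : 0 ≤ dt nw x)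
    (hy' : 0 ≤ dt nw y) : dt (act g x) y ≤ dt x y := by
  have h := hh_sq
  have hp := hh_pos
  rw [dt_nw] at hx' hy'
  have a1 := mul_nonneg hx hy
  have a2 := mul_nonneg hx hy'
  have a3 := mul_nonneg hx' hy
  have a4 := mul_nonneg hx' hy'
  fin_cases g
  · simp [dt, mA, mB, mC, mD]
  · simp [dt, mA, mB, mC, mD]; nlinarith
  · simp only [dt, act_re, act_im]
    simp [mA, mB, mC, mD]
    nlinarith
  · simp only [dt, act_re, act_im]
    simp [mA, mB, mC, mD]
    nlinarith
  · simp only [dt, act_re, act_im]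
    simp [mA, mB, mC, mD]
    nlinarith
  · simp only [dt, act_re, act_im]
    simp [mA, mB, mC, mD]
    nlinarith

end Pool.Agent.H30.CB
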