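import Pool.Agent.H30.CB.Fin

set_option autoImplicit false

namespace Pool.Agent.H30.CB

open MeasureTheory Finset

variable {R : ℕ} {σ : ℝ}

/-- two discs of `S` that touch -/
def Touch (S : Set E2) (a b : E2) : Prop := a ∈ S ∧ b ∈ S ∧ dist a b = 2

/-- first order rigidity of a finite cluster inside an arbitrary released set -/
theorem fo_cluster (N : Net R σ) (H : Good R σ) (S : Set ℂ) (K : Finset ℂ)
    (hKS : ∀ z ∈ K, z ∈ S) (hcard : K.card < R)
    (hcl : ∀ a ∈ K, ∀ b ∈ S, ‖a - b‖ = 1 → b ∈ K)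
    (d : ℂ → ℂ) (hd : ∀ z, z ∉ K → d z = 0)
    (hs : ∀ x ∈ (N.P \ S) ∪ (K : Set ℂ), ∀ y ∈ (N.P \ S) ∪ (K : Set ℂ), ‖x - y‖ = 1 →
      0 ≤ dt (x - y) (d x - d y)) :
    ∀ z ∈ N.P, d z = 0 := by
  apply N.fo H K hcard hd
  intro x hx y hy hxy
  have side : ∀ a ∈ N.P, a ∈ (N.P \ S) ∪ (K : Set ℂ) ∨ (a ∈ S ∧ a ∉ K) := by
    intro a ha
    by_cases h1 : a ∈ S
    · by_cases h2 : a ∈ K
      · left; right; exact h2
      · right; exact ⟨h1, h2⟩
    · left; left; exact ⟨ha, h1⟩
  rcases side x hx with h1 | ⟨h1, h1'⟩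
  · rcases side y hy with h2 | ⟨h2, h2'⟩
    · exact hs x h1 y h2 hxy
    · have hxK : x ∉ K := fun h => h2' (hcl x h y h2 hxy)
      rw [hd x hxK, hd y h2']; simp [dt]
  · have hyK : y ∉ K := fun h => h1' (hcl y h x h1 (by rw [norm_sub_rev]; exact hxy))
    rw [hd x h1', hd y hyK]; simp [dt]

/-- every set of discs all of whose clusters have fewer than `R` discs is locked -/
theorem packing_cluster_locked (N : Net R σ) (H : Good R σ) (S : Set E2) (hS : S ⊆ packing N)
    (hcl : ∀ x ∈ S, Set.encard {y | Relation.ReflTransGen (Touch S) x y} < R)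
    (f : E2 → ℝ → E2) (hc : ∀ x ∈ S, ContinuousOn (f x) (Set.Icc (0:ℝ) 1))
    (h0 : ∀ x ∈ S, f x 0 = x) (hfix : ∀ x ∈ packing N, x ∉ S → ∀ t : ℝ, f x t = x)
    (hsep : ∀ t ∈ Set.Icc (0:ℝ) 1, ∀ x ∈ packing N, ∀ y ∈ packing N, x ≠ y →
      2 ≤ dist (f x t) (f y t)) :
    ∀ x ∈ S, ∀ t ∈ Set.Icc (0:ℝ) 1, f x t = x := by
  classical
  intro x hx t ht
  set Cx : Set E2 := {y | Relation.ReflTransGen (Touch S) x y} with hCx
  have hfin : Cx.Finite := by
    apply Set.finite_of_encard_le_coe (k := R)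
    exact (hcl x hx).le
  have hCS : ∀ y ∈ Cx, y ∈ S := by
    intro y hy
    rcases Relation.ReflTransGen.cases_tail hy with h | ⟨c, _, h⟩
    · rw [h]; exact hx
    · exact h.2.1
  set K0 : Finset E2 := hfin.toFinset with hK0
  set K : Finset ℂ := K0.image ofE with hK
  set S' : Set ℂ := {z | toE z ∈ S} with hS'
  have memK : ∀ z, z ∈ K ↔ toE z ∈ Cx := by
    intro z
    rw [hK, Finset.mem_image]
    constructor
    · rintro ⟨y, hy, rfl⟩
      rw [toE_ofE]; exact hfin.mem_toFinset.1 hy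
    · intro h; exact ⟨toE z, hfin.mem_toFinset.2 h, ofE_toE z⟩
  have hcard : K.card < R := by
    have h1 : K.card ≤ K0.card := Finset.card_image_le
    have h2 : (K0.card : ℕ∞) < R := by
      have h4 : Cx.encard < R := hcl x hx
      rw [← hfin.coe_toFinset, Set.encard_coe_eq_coe_finsetCard] at h4
      exact h4
    have h3 : K0.card < R := by exact_mod_cast h2
    omega
  have dist_eq : ∀ a b : ℂ, dist (toE a) (toE b) = 2 * ‖a - b‖ := by
    intro a b
    have := norm_ofE_sub (toE a) (toE b)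
    rw [ofE_toE, ofE_toE] at this
    linarith
  have hclose : ∀ a ∈ K, ∀ b ∈ S', ‖a - b‖ = 1 → b ∈ K := by
    intro a ha b hb hab
    rw [memK] at ha ⊢
    refine Relation.ReflTransGen.tail ha ⟨hCS _ ha, hb, ?_⟩
    rw [dist_eq, hab]; norm_num
  have memP : ∀ z, z ∈ N.P → toE z ∈ packing N := by
    intro z hz
    show ofE _ ∈ N.P
    rwa [ofE_toE]
  have hKP : ∀ z ∈ K, z ∈ N.P := by
    intro z hz
    have h1 := hS (hCS _ ((memK z).1 hz))
    have h2 : ofE (toE z) ∈ N.P := h1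
    rwa [ofE_toE] at h2
  have hsub : ∀ z ∈ (N.P \ S') ∪ (K : Set ℂ), z ∈ N.P := by
    rintro z (hz | hz)
    · exact hz.1
    · exact hKP z hz
  have key := locked ((N.P \ S') ∪ (K : Set ℂ)) K (fun z hz => Or.inr hz)
    (fun d hd hs z hz => fo_cluster N H S' K (fun z hz => hCS _ ((memK z).1 hz)) hcard hclose
      d hd hs z (hsub z hz))
    (fun z t => ofE (f (toE z) t))
    (by
      intro z hz
      exact continuous_ofE.comp_continuousOn (hc _ (hCS _ ((memK z).1 hz))))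
    (by
      intro z hz
      show ofE (f (toE z) 0) = z
      rw [h0 _ (hCS _ ((memK z).1 hz)), ofE_toE])
    (by
      intro z hz hzK t _
      show ofE (f (toE z) t) = z
      rcases hz with hz | hz
      · rw [hfix _ (memP z hz.1) hz.2 t, ofE_toE]
      · exact absurd hz hzK)
    (by
      intro t ht a ha b hb hne
      have h1 := hsep t ht _ (memP a (hsub a ha)) _ (memP b (hsub b hb)) (fun h => hne (by
        rw [← ofE_toE a, ← ofE_toE b, h]))
      show 1 ≤ ‖ofE (f (toE a) t) - ofE (f (toE b) t)‖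
      rw [norm_ofE_sub]; linarith)
  have hxK : ofE x ∈ K := by
    rw [memK, toE_ofE]; exact Relation.ReflTransGen.refl
  have h1 := key (ofE x) hxK t ht
  simp only [toE_ofE] at h1
  exact ofE_injective h1

end Pool.Agent.H30.CB
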