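import Pool.Agent.H30.CB.Net

set_option autoImplicit false

namespace Pool.Agent.H30.CB

open Finset

lemma sqrt_hh : √(1 - (1/2 : ℝ)^2) = hh := by
  have h := hh_sq
  have h2 := hh_pos
  rw [show (1 - (1/2:ℝ)^2) = hh ^ 2 by rw [h]; norm_num]
  exact Real.sqrt_sq h2.le

lemma sqrt_45 : √(1 - (3/5 : ℝ)^2) = 4/5 := by
  rw [show (1 - (3/5:ℝ)^2) = (4/5) ^ 2 by norm_num]
  exact Real.sqrt_sq (by norm_num)

lemma ex_next {t c q x u : ℝ} (ht : 0 ≤ t) (ht' : t ≤ 2/100) (hq : t^2 + q^2 = 1)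
    (hq1 : 1 - 2/10000 ≤ q) (hc : 1/2 ≤ c) (hs : hh - 2/10000 ≤ √(1-c^2)) (hx : 0 ≤ x)
    (hx' : x ≤ 1/10000) (hu : u ≤ 1) (hu' : 1 - x ≤ u) :
    ∃ c', 1/2 ≤ c' ∧ c' ≤ 3/5 ∧ (t+c+c'-u)^2 + (q-x+√(1-c^2)-√(1-c'^2))^2 = 1 := by
  have h1 := hh_sq
  have h2 := hh_lo
  have h3 := hh_hi
  set s := √(1-c^2) with hsdef
  have hs2 : s^2 = 1 - c^2 := by
    rw [hsdef, Real.sq_sqrt]
    by_contra hneg
    push Not at hneg
    have : √(1-c^2) = 0 := Real.sqrt_eq_zero_of_nonpos hneg.le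
    linarith
  have hs0 : s ≤ hh := by nlinarith
  let F : ℝ → ℝ := fun c' => (t+c+c'-u)^2 + (q-x+s-√(1-c'^2))^2
  have hcont : ContinuousOn F (Set.Icc (1/2) (3/5)) := by
    apply Continuous.continuousOn
    unfold F
    fun_prop
  have hlo : F (1/2) ≤ 1 := by
    simp only [F]
    rw [sqrt_hh]
    have e1 : (c - 1/2) * (c + 1/2) = (hh - s) * (hh + s) := by nlinarith
    have e2 : (c - 1/2) ≤ (hh - s) * (2 * hh) := by
      have a1 : (c-1/2) * 1 ≤ (c-1/2) * (c+1/2) := by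
        apply mul_le_mul_of_nonneg_left <;> linarith
      have a2 : (hh - s) * (hh + s) ≤ (hh - s) * (2*hh) := by
        apply mul_le_mul_of_nonneg_left <;> linarith
      linarith
    have e3 : (c - 1/2) ≤ 1.7322 * (hh - s) := by nlinarith
    set e := c - 1/2 with he
    set h := hh - s with hh'
    set d := 1 - u with hd
    have hc' : c = e + 1/2 := by rw [he]; ring
    have hs' : s = hh - h := by rw [hh']; ring
    have hu'' : u = 1 - d := by rw [hd]; ring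
    have b1 : 0 ≤ h := by linarith
    have b2 : h ≤ 2/10000 := by linarith
    have b3 : 0 ≤ e := by linarith
    have b4 : 0 ≤ d := by linarith
    have b5 : d ≤ x := by linarith
    have g1 : (t + c + 1/2 - u) = t + (e + d) := by rw [hc', hu'']; ring
    have g2 : (q - x + s - hh) = q - (x + h) := by rw [hs']; ring
    rw [g1, g2]
    have g3 : e + d ≤ 1.7322 * (x + h) := by linarith
    have g4 : (e+d) * (2*t + (e+d)) ≤ (1.7322 * (x+h)) * (5/100) := by
      apply mul_le_mul g3 _ (by positivity) (by positivity)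
      linarith
    have g5 : (x+h) * (19/10) ≤ (x+h) * (2*q - (x+h)) := by
      apply mul_le_mul_of_nonneg_left _ (by positivity)
      linarith
    nlinarith
  have hhi : 1 ≤ F (3/5) := by
    simp only [F]
    rw [sqrt_45]
    have : 1 ≤ q - x + s - 4/5 := by linarith
    nlinarith [sq_nonneg (t + c + 3/5 - u)]
  have hivt := intermediate_value_Icc (by norm_num : (1/2:ℝ) ≤ 3/5) hcont
  obtain ⟨c', hc', hF⟩ := hivt ⟨hlo, hhi⟩
  exact ⟨c', hc'.1, hc'.2, hF⟩

open Classical in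
/-- the choice of the next cosine -/
noncomputable def nxt (t c q x u : ℝ) : ℝ :=
  if h : ∃ c', 1/2 ≤ c' ∧ c' ≤ 3/5 ∧ (t+c+c'-u)^2 + (q-x+√(1-c^2)-√(1-c'^2))^2 = 1 then h.choose
  else 1/2

lemma nxt_lo (t c q x u : ℝ) : 1/2 ≤ nxt t c q x u := by
  unfold nxt
  split_ifs with h
  · exact h.choose_spec.1
  · exact le_refl _

lemma nxt_hi (t c q x u : ℝ) : nxt t c q x u ≤ 3/5 := by
  unfold nxt
  split_ifs with h
  · exact h.choose_spec.2.1
  · norm_num

lemma nxt_spec {t c q x u : ℝ}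
    (h : ∃ c', 1/2 ≤ c' ∧ c' ≤ 3/5 ∧ (t+c+c'-u)^2 + (q-x+√(1-c^2)-√(1-c'^2))^2 = 1) :
    (t+c+nxt t c q x u-u)^2 + (q-x+√(1-c^2)-√(1-(nxt t c q x u)^2))^2 = 1 := by
  unfold nxt
  rw [dif_pos h]
  exact h.choose_spec.2.2

/-- states of the recursion -/
structure St where
  w : ℕ → ℝ
  t : ℝ
  q : ℝ

/-- the recursion -/
noncomputable def sq (R : ℕ) (σ : ℝ) : ℕ → St
  | 0 => ⟨fun _ => 1/2, 0, 1⟩
  | (j+1) =>
    let st := sq R σ j
    let c' := nxt st.t (st.w j) st.q (xs σ j) (ux σ j)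
    ⟨Function.update st.w (j+R) c', st.t + st.w j + c' - ux σ j,
      st.q - xs σ j + √(1 - (st.w j)^2) - √(1-c'^2)⟩

section
variable (R : ℕ) (σ : ℝ)

noncomputable def cc (l : ℕ) : ℝ := (sq R σ l).w l
noncomputable def ss (l : ℕ) : ℝ := √(1 - (cc R σ l)^2)
noncomputable def tt (l : ℕ) : ℝ := (sq R σ l).t
noncomputable def qq (l : ℕ) : ℝ := (sq R σ l).q

lemma w_update (j l : ℕ) (h : l ≠ j + R) : (sq R σ (j+1)).w l = (sq R σ j).w l := by
  simp only [sq]
  exact Function.update_of_ne h _ _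

lemma w_new (j : ℕ) : (sq R σ (j+1)).w (j+R)
    = nxt (tt R σ j) (cc R σ j) (qq R σ j) (xs σ j) (ux σ j) := by
  simp only [sq]
  rw [Function.update_self]
  rfl

lemma w_stable (j m : ℕ) (h : j + 1 ≤ m) : (sq R σ m).w (j+R) = (sq R σ (j+1)).w (j+R) := by
  induction h with
  | refl => rfl
  | step h ih =>
    rename_i m
    have hm : j + 1 ≤ m := h
    rw [w_update R σ m (j+R) (by omega), ih]

lemma w_low (j l : ℕ) (h : l < R) : (sq R σ j).w l = 1/2 := by
  induction j with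
  | zero => rfl
  | succ n ih => rw [w_update R σ n l (by omega), ih]

lemma cc_new (hR : 1 ≤ R) (j : ℕ) : cc R σ (j+R)
    = nxt (tt R σ j) (cc R σ j) (qq R σ j) (xs σ j) (ux σ j) := by
  unfold cc
  rw [w_stable R σ j (j+R) (by omega), w_new]
  rfl

lemma cc_low (l : ℕ) (h : l < R) : cc R σ l = 1/2 := w_low R σ l l h

lemma cc_lo (hR : 1 ≤ R) (l : ℕ) : 1/2 ≤ cc R σ l := by
  by_cases h : l < R
  · rw [cc_low R σ l h]
  · obtain ⟨j, rfl⟩ : ∃ j, l = j + R := ⟨l - R, by omega⟩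
    rw [cc_new R σ hR]
    exact nxt_lo _ _ _ _ _

lemma cc_hi (hR : 1 ≤ R) (l : ℕ) : cc R σ l ≤ 3/5 := by
  by_cases h : l < R
  · rw [cc_low R σ l h]; norm_num
  · obtain ⟨j, rfl⟩ : ∃ j, l = j + R := ⟨l - R, by omega⟩
    rw [cc_new R σ hR]
    exact nxt_hi _ _ _ _ _

lemma tt_succ (hR : 1 ≤ R) (j : ℕ) :
    tt R σ (j+1) = tt R σ j + cc R σ j + cc R σ (j+R) - ux σ j := by
  rw [cc_new R σ hR]
  simp only [tt, sq]
  rfl

lemma qq_succ (hR : 1 ≤ R) (j : ℕ) :
    qq R σ (j+1) = qq R σ j - xs σ j + ss R σ j - ss R σ (j+R) := by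
  unfold ss
  rw [cc_new R σ hR]
  simp only [qq, sq]
  rfl

lemma ss_sq (hR : 1 ≤ R) (l : ℕ) : (ss R σ l)^2 = 1 - (cc R σ l)^2 := by
  unfold ss
  rw [Real.sq_sqrt]
  have h1 := cc_lo R σ hR l
  have h2 := cc_hi R σ hR l
  nlinarith

lemma ss_le (hR : 1 ≤ R) (l : ℕ) : ss R σ l ≤ hh := by
  have h1 := cc_lo R σ hR l
  have h2 := ss_sq R σ hR l
  have h3 := hh_sq
  have h4 := hh_pos
  have h5 : 0 ≤ ss R σ l := Real.sqrt_nonneg _
  nlinarith

lemma ss_low (l : ℕ) (h : l < R) : ss R σ l = hh := by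
  unfold ss; rw [cc_low R σ l h]; exact sqrt_hh

lemma eid (hR : 1 ≤ R) (j : ℕ) :
    (1 - qq R σ j) + ∑ l ∈ range R, (hh - ss R σ (j+l)) = ∑ l ∈ range j, xs σ l := by
  induction j with
  | zero =>
    have h0 : qq R σ 0 = 1 := rfl
    rw [h0]
    have : ∀ l ∈ range R, hh - ss R σ (0 + l) = 0 := by
      intro l hl
      rw [zero_add, ss_low R σ l (mem_range.1 hl)]; ring
    rw [sum_eq_zero this]; simp
  | succ n ih =>
    rw [sum_range_succ (fun l => xs σ l), ← ih, qq_succ R σ hR n]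
    have e1 : ∑ l ∈ range (R+1), (hh - ss R σ (n + l))
        = ∑ l ∈ range R, (hh - ss R σ (n + l)) + (hh - ss R σ (n+R)) := sum_range_succ _ _
    have e2 : ∑ l ∈ range (R+1), (hh - ss R σ (n + l))
        = ∑ l ∈ range R, (hh - ss R σ (n + (l+1))) + (hh - ss R σ (n+0)) := sum_range_succ' _ _
    have e3 : ∑ l ∈ range R, (hh - ss R σ (n + 1 + l))
        = ∑ l ∈ range R, (hh - ss R σ (n + (l+1))) := by
      apply sum_congr rfl
      intro l _
      congr 2; ring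
    rw [e3]
    rw [add_zero] at e2
    linarith

lemma inv (hR : 1 ≤ R) (h0 : 0 < σ) (h1 : σ ≤ 1/100) (j : ℕ) :
    0 ≤ tt R σ j ∧ 0 ≤ qq R σ j ∧ (tt R σ j)^2 + (qq R σ j)^2 = 1 := by
  induction j with
  | zero =>
    have a : tt R σ 0 = 0 := rfl
    have b : qq R σ 0 = 1 := rfl
    rw [a, b]; norm_num
  | succ n ih =>
    obtain ⟨ht, hq, htq⟩ := ih
    have hE := eid R σ hR n
    have hX := xs_sum_le σ n
    have hσ : σ^2 ≤ 1/10000 := by nlinarith
    have hwin : ∀ l, 0 ≤ hh - ss R σ l := fun l => by have := ss_le R σ hR l; linarith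
    have hW : hh - ss R σ n ≤ ∑ l ∈ range R, (hh - ss R σ (n+l)) := by
      have := single_le_sum (f := fun l => hh - ss R σ (n+l)) (s := range R)
        (fun i _ => hwin (n+i)) (mem_range.2 (by omega : 0 < R))
      simpa using this
    have hq1 : qq R σ n ≤ 1 := by nlinarith [sq_nonneg (tt R σ n)]
    have hq2 : 1 - 2/10000 ≤ qq R σ n := by have := hwin n; linarith
    have hs2 : hh - 2/10000 ≤ ss R σ n := by linarith
    have ht2 : tt R σ n ≤ 2/100 := by nlinarith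
    have hx0 := xs_nonneg σ n
    have hx1 := xs_small h0 h1 n
    have hu1 := ux_le_one σ n
    have hu2 := ux_lo' h0 h1 n
    have hex := ex_next ht ht2 htq hq2 (cc_lo R σ hR n) hs2 hx0 hx1 hu1 hu2
    have hsp := nxt_spec hex
    rw [← cc_new R σ hR] at hsp
    rw [tt_succ R σ hR, qq_succ R σ hR]
    refine ⟨?_, ?_, hsp⟩
    · have c1 := cc_lo R σ hR n
      have c2 := cc_lo R σ hR (n+R)
      linarith
    · have s1 := ss_le R σ hR (n+R)
      linarith

/-- existence of the net -/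
noncomputable def theNet (hR : 1 ≤ R) (h0 : 0 < σ) (h1 : σ ≤ 1/100) : Net R σ where
  c := cc R σ
  s := ss R σ
  t := tt R σ
  q := qq R σ
  c0 := fun l hl => cc_low R σ l hl
  s0 := fun l hl => ss_low R σ l hl
  cs := fun l => by rw [ss_sq R σ hR]; ring
  clo := cc_lo R σ hR
  snn := fun l => Real.sqrt_nonneg _
  t0 := rfl
  q0 := rfl
  tq := fun j => (inv R σ hR h0 h1 j).2.2
  qnn := fun j => (inv R σ hR h0 h1 j).2.1
  tnn := fun j => (inv R σ hR h0 h1 j).1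
  tS := fun j => tt_succ R σ hR j
  qS := fun j => qq_succ R σ hR j

end

end Pool.Agent.H30.CB
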