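import Pool.Agent.H30.CB.Net

set_option autoImplicit false

namespace Pool.Agent.H30.CB

open Finset

namespace Net

variable {R : ℕ} {σ : ℝ} (N : Net R σ)

lemma C_mono (j n : ℕ) : N.C j + n / 2 ≤ N.C (j+n) := by
  induction n with
  | zero => simp
  | succ m ih => rw [← add_assoc, C_succ]; push_cast; have := N.clo (j+m); linarith

lemma C_mono' {i j : ℕ} (h : i ≤ j) : N.C i + ((j:ℝ) - i) / 2 ≤ N.C j := by
  obtain ⟨n, rfl⟩ := Nat.exists_eq_add_of_le h
  have := N.C_mono i n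
  push_cast; linarith

lemma S_win_nonneg (j k : ℕ) : 0 ≤ N.S (j+k) - N.S j := by
  rw [S_add]
  exact sum_nonneg (fun l _ => N.snn _)

/-- all discs: rows `0..R` of the net, row `R+1` the void chain -/
noncomputable def p (k j : ℕ) : ℂ := if k ≤ R then N.b k j else N.r j

lemma p_b {k : ℕ} (h : k ≤ R) (j : ℕ) : N.p k j = N.b k j := by simp [p, h]
lemma p_r (j : ℕ) : N.p (R+1) j = N.r j := by simp [p]

lemma r_re (j : ℕ) : (N.r j).re = (N.b R j).re - N.t j := by
  simp [r, sub_eq_add_neg]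
lemma r_im (j : ℕ) : (N.r j).im = (N.b R j).im + N.q j := by
  simp [r]

lemma b_im_lo (k j : ℕ) : 1/2 ≤ (N.b k j).im := by
  have := N.S_win_nonneg j k
  rw [b_im]; linarith

lemma p_im_lo (k j : ℕ) : 1/2 ≤ (N.p k j).im := by
  unfold p
  split_ifs with h
  · exact N.b_im_lo k j
  · rw [r_im]
    have := N.b_im_lo R j
    have := N.qnn j
    linarith

lemma b_nw (k j : ℕ) : 1/2 + 2 * hh * N.C j ≤ dt nw (N.b k j) := by
  have h1 := N.C_mono j k
  have h2 := N.S_win_hi j k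
  have h3 := hh_mul
  have h4 := hh_pos
  rw [dt_nw, b_re, b_im]
  have h5 : hh * (N.C j + k/2) ≤ hh * N.C (j+k) := mul_le_mul_of_nonneg_left h1 h4.le
  nlinarith

lemma b_nw_lo (k j : ℕ) : 1/2 ≤ dt nw (N.b k j) := by
  have h1 := N.b_nw k j
  have h2 := N.C_lo j
  have h3 := hh_pos
  have h4 : (0:ℝ) ≤ j := Nat.cast_nonneg j
  have h5 : 0 ≤ 2 * hh * N.C j := by
    apply mul_nonneg (by positivity); linarith
  linarith

/-- the corner disc lies on the wall -/
lemma C_eq {k : ℕ} (h : k ≤ R) : N.C k = k / 2 := by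
  unfold C
  rw [sum_congr rfl (fun l hl => N.c0 l (by have := mem_range.1 hl; omega))]
  simp; ring
lemma S_eq {k : ℕ} (h : k ≤ R) : N.S k = k * hh := by
  unfold S
  rw [sum_congr rfl (fun l hl => N.s0 l (by have := mem_range.1 hl; omega))]
  simp

lemma b_col0 {k : ℕ} (h : k ≤ R) : N.b k 0 = ⟨hh + k/2, 1/2 + k * hh⟩ := by
  apply Complex.ext
  · simp [C_zero, N.C_eq h]
  · simp [S_zero, N.S_eq h]

lemma nw_b_col0 {k : ℕ} (h : k ≤ R) : dt nw (N.b k 0) = 1/2 := by
  rw [N.b_col0 h, dt_nw]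
  have := hh_mul
  simp
  nlinarith

lemma nw_r0 : dt nw (N.r 0) = 0 := by
  have h := N.nw_b_col0 (le_refl R)
  rw [r, dt_add_right, h]
  simp [dt_nw, N.t0, N.q0]

lemma nw_r_lo (h0 : 0 < σ) (h1 : σ ≤ 1/100) (j : ℕ) : 1/2 ≤ dt nw (N.r (j+1)) := by
  have h2 := N.b_nw R (j+1)
  have h3 := N.C_lo (j+1)
  have h4 := N.t_hi h0 (j+1)
  have h5 := N.q_le (j+1)
  have h6 := hh_lo
  have h7 := hh_hi
  have h8 : (0:ℝ) ≤ j := Nat.cast_nonneg j
  have h9 := N.tnn (j+1)
  push_cast at h3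
  rw [r, dt_add_right]
  have e : dt nw (N.et (j+1)) = - hh * N.t (j+1) - N.q (j+1)/2 := by
    rw [dt_nw, et_re, et_im]; ring
  rw [e]
  have a1 : 2 * hh * (1/2) ≤ 2 * hh * N.C (j+1) := by
    apply mul_le_mul_of_nonneg_left _ (by linarith)
    linarith
  have a2 : hh * N.t (j+1) ≤ (8661/10000) * (2/100) := by
    apply mul_le_mul h7.le _ h9 (by norm_num)
    linarith
  linarith

lemma p_nw_lo (h0 : 0 < σ) (h1 : σ ≤ 1/100) (k j : ℕ) :
    1/2 ≤ dt nw (N.p k j) ∨ (¬ k ≤ R ∧ j = 0) := by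
  unfold p
  split_ifs with h
  · left; exact N.b_nw_lo k j
  · rcases j with _ | j
    · right; exact ⟨h, rfl⟩
    · left; exact N.nw_r_lo h0 h1 j

lemma p_nw_nonneg (h0 : 0 < σ) (h1 : σ ≤ 1/100) (k j : ℕ) : 0 ≤ dt nw (N.p k j) := by
  rcases N.p_nw_lo h0 h1 k j with h | ⟨h, hj⟩
  · linarith
  · subst hj
    have : N.p k 0 = N.r 0 := by simp [p, h]
    rw [this, nw_r0]

/-- separation inside one row -/
lemma b_row (k : ℕ) {j j' : ℕ} (h : j ≤ j') : (N.b k j).re + ((j':ℝ) - j) ≤ (N.b k j').re := by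
  have h1 := N.C_mono' h
  have h2 := N.C_mono' (show j + k ≤ j' + k by omega)
  push_cast at h2
  rw [b_re, b_re]; linarith

lemma one_le_dt_of_re {z : ℂ} (h : 1 ≤ z.re) : 1 ≤ dt z z := by
  unfold dt; nlinarith [mul_self_nonneg z.im]
lemma one_le_dt_of_re' {z : ℂ} (h : z.re ≤ -1) : 1 ≤ dt z z := by
  unfold dt; nlinarith [mul_self_nonneg z.im]
lemma one_le_dt_of_im {z : ℂ} (h : 1 ≤ z.im) : 1 ≤ dt z z := by
  unfold dt; nlinarith [mul_self_nonneg z.re]

lemma sep_row (k : ℕ) {j j' : ℕ} (h : j ≠ j') :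
    1 ≤ dt (N.b k j - N.b k j') (N.b k j - N.b k j') := by
  rcases lt_or_gt_of_ne h with h | h
  · apply one_le_dt_of_re'
    have h1 := N.b_row k h.le
    have h2 : (j:ℝ) + 1 ≤ j' := by exact_mod_cast h
    rw [Complex.sub_re]; linarith
  · apply one_le_dt_of_re
    have h1 := N.b_row k h.le
    have h2 : (j':ℝ) + 1 ≤ j := by exact_mod_cast h
    rw [Complex.sub_re]; linarith

lemma sep_next (k j j' : ℕ) : 1 ≤ dt (N.b (k+1) j' - N.b k j) (N.b (k+1) j' - N.b k j) := by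
  rcases Nat.lt_trichotomy j' j with h | h | h
  · obtain ⟨n, rfl⟩ := Nat.exists_eq_add_of_lt h
    rcases n with _ | n
    · rw [show j' + 0 + 1 = j' + 1 by ring, edge_b, dt_bv]
    · apply one_le_dt_of_re'
      have h1 := N.C_mono j' (n+1+1)
      have h2 := N.C_mono (j'+(k+1)) (n+1)
      rw [Complex.sub_re, b_re, b_re]
      rw [show j' + (n+1) + 1 = j' + (n+1+1) by ring]
      rw [show j' + (n+1+1) + k = j' + (k+1) + (n+1) by ring]
      push_cast at h1 h2
      have : (0:ℝ) ≤ n := Nat.cast_nonneg n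
      linarith
  · subst h
    rw [edge_a, dt_av]
  · apply one_le_dt_of_re
    obtain ⟨n, rfl⟩ := Nat.exists_eq_add_of_lt h
    have h1 := N.C_mono j (n+1)
    have h2 := N.C_mono (j+k) (n+1+1)
    rw [Complex.sub_re, b_re, b_re]
    rw [show j + n + 1 = j + (n+1) by ring]
    rw [show j + (n+1) + (k+1) = j + k + (n+1+1) by ring]
    push_cast at h1 h2
    have : (0:ℝ) ≤ n := Nat.cast_nonneg n
    linarith

lemma sep_far (h0 : 0 < σ) (h1 : σ ≤ 1/100) {k k' : ℕ} (hk : k + 2 ≤ k') (hk' : k' ≤ R)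
    (j j' : ℕ) : 1 ≤ dt (N.b k' j' - N.b k j) (N.b k' j' - N.b k j) := by
  apply one_le_dt_of_im
  have h2 := N.S_win_lo j' k' hk'
  have h3 := N.S_win_hi j k
  have h4 := hh_lo
  have h5 : (k:ℝ) + 2 ≤ k' := by exact_mod_cast hk
  rw [Complex.sub_im, b_im, b_im]
  have h6 : ((k:ℝ)+2) * hh ≤ k' * hh := mul_le_mul_of_nonneg_right h5 hh_pos.le
  nlinarith

lemma dt_neg_neg (z : ℂ) : dt (-z) (-z) = dt z z := by
  simp [dt]

lemma sep_bb (h0 : 0 < σ) (h1 : σ ≤ 1/100) {k k' : ℕ} (hk : k ≤ R) (hk' : k' ≤ R)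
    (j j' : ℕ) (hne : ¬ (k = k' ∧ j = j')) :
    1 ≤ dt (N.b k j - N.b k' j') (N.b k j - N.b k' j') := by
  rcases Nat.lt_trichotomy k k' with h | h | h
  · rw [← dt_neg_neg, neg_sub]
    rcases Nat.lt_or_ge k' (k+2) with h2 | h2
    · obtain rfl : k' = k+1 := by omega
      exact N.sep_next k j j'
    · exact N.sep_far h0 h1 h2 hk' j j'
  · subst h
    exact N.sep_row k (fun h => hne ⟨rfl, h⟩)
  · rcases Nat.lt_or_ge k (k'+2) with h2 | h2
    · obtain rfl : k = k'+1 := by omega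
      exact N.sep_next k' j' j
    · exact N.sep_far h0 h1 h2 hk j' j

lemma sep_rr (h0 : 0 < σ) (h1 : σ ≤ 1/100) {j j' : ℕ} (h : j < j') :
    1 ≤ dt (N.r j' - N.r j) (N.r j' - N.r j) := by
  rcases Nat.lt_or_ge j' (j+2) with h2 | h2
  · obtain rfl : j' = j+1 := by omega
    rw [edge_t, dt_uv h0 h1]
  · apply one_le_dt_of_re
    have h3 := N.b_row R h.le
    have h4 := N.t_hi h0 j'
    have h5 := N.tnn j
    have h6 : (j:ℝ) + 2 ≤ j' := by exact_mod_cast h2
    rw [Complex.sub_re, r_re, r_re]; linarith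

lemma sep_rb (h0 : 0 < σ) (h1 : σ ≤ 1/100) {k : ℕ} (hk : k ≤ R) (j j' : ℕ) :
    1 ≤ dt (N.r j - N.b k j') (N.r j - N.b k j') := by
  have h2 := N.S_win_lo j R (le_refl R)
  have h3 := N.S_win_hi j' k
  have h4 := hh_lo
  have h5 := N.q_lo j
  have hσ : σ^2 ≤ 1/10000 := by nlinarith
  rcases Nat.lt_or_ge k R with hkR | hkR
  · apply one_le_dt_of_im
    have h6 : (k:ℝ) + 1 ≤ R := by exact_mod_cast hkR
    have h7 : ((k:ℝ)+1) * hh ≤ R * hh := mul_le_mul_of_nonneg_right h6 hh_pos.le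
    rw [Complex.sub_im, r_im, b_im, b_im]
    nlinarith
  · obtain rfl : k = R := by omega
    have him : 1 - 4 * σ^2 ≤ (N.r j - N.b k j').im := by
      rw [Complex.sub_im, r_im, b_im, b_im]
      linarith
    rcases Nat.lt_trichotomy j' j with h | h | h
    · have h6 := N.b_row k h.le
      have h7 : (j':ℝ) + 1 ≤ j := by exact_mod_cast h
      have h8 := N.t_hi h0 j
      have hre : 98/100 ≤ (N.r j - N.b k j').re := by
        rw [Complex.sub_re, r_re]; linarith
      unfold dt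
      nlinarith
    · subst h
      rw [edge_q, dt_et]
    · apply one_le_dt_of_re'
      have h6 := N.b_row k h.le
      have h7 : (j:ℝ) + 1 ≤ j' := by exact_mod_cast h
      have h8 := N.tnn j
      rw [Complex.sub_re, r_re]; linarith

/-- separation in the chamber -/
lemma sep_p (h0 : 0 < σ) (h1 : σ ≤ 1/100) {k k' : ℕ} (hk : k ≤ R + 1) (hk' : k' ≤ R + 1)
    (j j' : ℕ) (hne : ¬ (k = k' ∧ j = j')) :
    1 ≤ dt (N.p k j - N.p k' j') (N.p k j - N.p k' j') := by
  rcases Nat.lt_or_ge R k with h | h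
  · obtain rfl : k = R+1 := by omega
    rw [p_r]
    rcases Nat.lt_or_ge R k' with h' | h'
    · obtain rfl : k' = R+1 := by omega
      rw [p_r]
      have : j ≠ j' := fun h => hne ⟨rfl, h⟩
      rcases lt_or_gt_of_ne this with h3 | h3
      · rw [← dt_neg_neg, neg_sub]
        exact N.sep_rr h0 h1 h3
      · exact N.sep_rr h0 h1 h3
    · rw [N.p_b h']
      exact N.sep_rb h0 h1 h' j j'
  · rw [N.p_b h]
    rcases Nat.lt_or_ge R k' with h' | h'
    · obtain rfl : k' = R+1 := by omega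
      rw [p_r, ← dt_neg_neg, neg_sub]
      exact N.sep_rb h0 h1 h j' j
    · rw [N.p_b h']
      exact N.sep_bb h0 h1 h h' j j' hne

lemma act_self_far (g : Fin 6) (x : ℂ) (hi : 1/2 ≤ x.im) (hn : 0 ≤ dt nw x) (hg : g ≠ 0)
    (h3 : g = 3 → 1/2 ≤ dt nw x) : 1 ≤ dt (act g x - x) (act g x - x) := by
  have h := hh_sq
  have hp := hh_pos
  have hm := hh_mul
  rw [dt_nw] at hn h3
  have hre : 1/4 ≤ hh * x.re := by linarith
  have hre2 : 1/12 ≤ x.re * x.re := by nlinarith
  fin_cases g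
  · exact absurd rfl hg
  · simp [dt, mA, mB, mC, mD]; nlinarith
  · simp [dt, mA, mB, mC, mD]
    have e : (-1 / 2 * x.re + -(hh * x.im) - x.re) * (-1 / 2 * x.re + -(hh * x.im) - x.re) +
      (hh * x.re + -1 / 2 * x.im - x.im) * (hh * x.re + -1 / 2 * x.im - x.im)
      = 3 * (x.re * x.re + x.im * x.im) := by
        linear_combination (x.im^2 + x.re ^ 2) * h
    nlinarith
  · have h4 := h3 rfl
    simp [dt, mA, mB, mC, mD]
    have e : (-1 / 2 * x.re + hh * x.im - x.re) * (-1 / 2 * x.re + hh * x.im - x.re) +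
      (hh * x.re + 1 / 2 * x.im - x.im) * (hh * x.re + 1 / 2 * x.im - x.im)
      = 4 * (hh * x.re - x.im / 2) ^ 2 := by
        linear_combination (x.im^2 - 3 * x.re ^ 2) * h
    nlinarith
  · simp [dt, mA, mB, mC, mD]
    have e : (-1 / 2 * x.re + hh * x.im - x.re) * (-1 / 2 * x.re + hh * x.im - x.re) +
      (-(hh * x.re) + -1 / 2 * x.im - x.im) * (-(hh * x.re) + -1 / 2 * x.im - x.im)
      = 3 * (x.re * x.re + x.im * x.im) := by
        linear_combination (x.im^2 + x.re ^ 2) * h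
    nlinarith
  · simp [dt, mA, mB, mC, mD]
    have e : (-1 / 2 * x.re + -(hh * x.im) - x.re) * (-1 / 2 * x.re + -(hh * x.im) - x.re) +
      (-(hh * x.re) + 1 / 2 * x.im - x.im) * (-(hh * x.re) + 1 / 2 * x.im - x.im)
      = 4 * (hh * x.re + x.im / 2) ^ 2 := by
        linear_combination (x.im^2 - 3 * x.re ^ 2) * h
    nlinarith

lemma mulT_inv' (a : Fin 6) : mulT a (invT a) = 0 := by
  fin_cases a <;> rfl

/-- global separation -/
theorem sep_all (h0 : 0 < σ) (h1 : σ ≤ 1/100) {k k' : ℕ} (hk : k ≤ R + 1) (hk' : k' ≤ R + 1)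
    (j j' : ℕ) (g g' : Fin 6) :
    (act g (N.p k j) = act g' (N.p k' j') ∧ k = k' ∧ j = j') ∨
      1 ≤ ‖act g (N.p k j) - act g' (N.p k' j')‖ := by
  set x := N.p k j with hx
  set y := N.p k' j' with hy
  have e1 : ‖act g x - act g' y‖ = ‖act (mulT (invT g') g) x - y‖ := by
    rw [← norm_act (invT g') (act g x - act g' y), act_sub, act_act, act_inv_act]
  set f := mulT (invT g') g with hf
  by_cases hne : k = k' ∧ j = j'
  · obtain ⟨rfl, rfl⟩ := hne
    have hxy : x = y := rfl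
    by_cases hf0 : f = 0
    · left
      refine ⟨?_, rfl, rfl⟩
      rw [mulT_inv_eq g' g hf0, hxy]
    · by_cases hc : f = 3 ∧ ¬ (1/2 ≤ dt nw x)
      · left
        refine ⟨?_, rfl, rfl⟩
        obtain ⟨hf3, hnn⟩ := hc
        have hz : dt nw x = 0 := by
          rcases N.p_nw_lo h0 h1 k j with h | ⟨h, hj⟩
          · exact absurd h hnn
          · have : x = N.r 0 := by rw [hx, hj]; simp [p, h]
            rw [this, nw_r0]
        have e2 : act 3 x = x := by rw [act3_eq, hz]; simp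
        have e3 : act (invT g') (act g x) = x := by rw [act_act, ← hf, hf3, e2]
        have e4 : act g' (act (invT g') (act g x)) = act g' x := by rw [e3]
        rw [act_act] at e4
        rw [mulT_inv', act_zero_id] at e4
        rw [e4]
      · right
        rw [e1, one_le_norm_iff, ← hxy]
        apply act_self_far f x (N.p_im_lo k j) (N.p_nw_nonneg h0 h1 k j) hf0
        intro h3
        by_contra hcon
        exact hc ⟨h3, hcon⟩
  · right
    rw [e1, one_le_norm_iff]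
    have a1 := N.sep_p h0 h1 hk hk' j j' hne
    rw [← hx, ← hy] at a1
    have xi := N.p_im_lo k j
    have yi := N.p_im_lo k' j'
    have a2 := fold_le f x y (by linarith) (by linarith)
      (N.p_nw_nonneg h0 h1 k j) (N.p_nw_nonneg h0 h1 k' j')
    have a3 : dt (act f x - y) (act f x - y) = dt x x + dt y y - 2 * dt (act f x) y := by
      rw [dt_sub_left, dt_sub_right, dt_sub_right, dt_act, dt_comm y (act f x)]; ring
    have a4 : dt (x - y) (x - y) = dt x x + dt y y - 2 * dt x y := by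
      rw [dt_sub_left, dt_sub_right, dt_sub_right, dt_comm y x]; ring
    linarith

end Net

end Pool.Agent.H30.CB
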