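import Pool.Agent.H30.CB.WtA
import Pool.Agent.H30.CB.Sep

set_option autoImplicit false

namespace Pool.Agent.H30.CB

open Finset

lemma act_expand (g : Fin 6) (v : ℂ) :
    act g v = v.re • act g 1 + v.im • act g Complex.I := by
  apply Complex.ext <;> simp <;> ring

/-- the folded displacement -/
noncomputable def fd (d : ℂ → ℂ) (x : ℂ) : ℂ :=
  ⟨∑ g, dt (act g 1) (d (act g x)), ∑ g, dt (act g Complex.I) (d (act g x))⟩

lemma dt_fd (d : ℂ → ℂ) (x v : ℂ) : dt v (fd d x) = ∑ g, dt (act g v) (d (act g x)) := by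
  have : ∀ g : Fin 6, dt (act g v) (d (act g x))
      = v.re * dt (act g 1) (d (act g x)) + v.im * dt (act g Complex.I) (d (act g x)) := by
    intro g
    rw [act_expand g v, dt_add_left, dt_smul_left, dt_smul_left]
  rw [sum_congr rfl (fun g _ => this g), sum_add_distrib, ← mul_sum, ← mul_sum]
  rfl

lemma dt_fd_sub (d : ℂ → ℂ) (x y v : ℂ) : dt v (fd d x - fd d y)
    = ∑ g, dt (act g v) (d (act g x) - d (act g y)) := by
  rw [dt_sub_right, dt_fd, dt_fd, ← sum_sub_distrib]
  apply sum_congr rfl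
  intro g _
  rw [dt_sub_right]

lemma zero_of_two {A B w : ℂ} (h : cr A B ≠ 0) (h1 : dt A w = 0) (h2 : dt B w = 0) : w = 0 := by
  have e1 : cr A B * w.re = B.im * dt A w - A.im * dt B w := by simp only [cr, dt]; ring
  have e2 : cr A B * w.im = A.re * dt B w - B.re * dt A w := by simp only [cr, dt]; ring
  rw [h1, h2] at e1 e2
  apply Complex.ext
  · have : cr A B * w.re = 0 := by linarith
    rcases mul_eq_zero.1 this with h3 | h3
    · exact absurd h3 h
    · exact h3
  · have : cr A B * w.im = 0 := by linarith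
    rcases mul_eq_zero.1 this with h3 | h3
    · exact absurd h3 h
    · exact h3

lemma dt_act_left (g : Fin 6) (v w : ℂ) : dt (act g v) w = dt v (act (invT g) w) := by
  rw [← dt_act (invT g) (act g v) w, act_inv_act]

lemma act_eq_zero (g : Fin 6) (w : ℂ) (h : act g w = 0) : w = 0 := by
  have : ‖act g w‖ = 0 := by rw [h]; simp
  rw [norm_act] at this
  exact norm_eq_zero.1 this

lemma zero_of_two_act (g : Fin 6) {A B w : ℂ} (h : cr A B ≠ 0) (h1 : dt (act g A) w = 0)
    (h2 : dt (act g B) w = 0) : w = 0 := by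
  rw [dt_act_left] at h1 h2
  exact act_eq_zero _ _ (zero_of_two h h1 h2)

lemma dt_nw_self : dt nw nw = 1 := by
  have := hh_sq
  simp only [dt, nw_re, nw_im]; nlinarith

lemma I_re' : (Complex.I).re = 0 := by simp
lemma I_im' : (Complex.I).im = 1 := by simp

namespace Net

variable {R : ℕ} {σ : ℝ} (N : Net R σ)

/-- the packing (unit diameter) -/
def P : Set ℂ := {z | ∃ g : Fin 6, ∃ k j : ℕ, z = act g (N.p k j)}

lemma mem_P (g : Fin 6) (k j : ℕ) : act g (N.p k j) ∈ N.P := ⟨g, k, j, rfl⟩
lemma mem_Pb (g : Fin 6) {k : ℕ} (hk : k ≤ R) (j : ℕ) : act g (N.b k j) ∈ N.P :=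
  ⟨g, k, j, by rw [N.p_b hk]⟩
lemma mem_Pr (g : Fin 6) (j : ℕ) : act g (N.r j) ∈ N.P :=
  ⟨g, R+1, j, by rw [N.p_r]⟩

lemma p_min (k j : ℕ) : N.p k j = N.p (min k (R+1)) j := by
  unfold p
  rcases Nat.lt_or_ge R k with h | h
  · rw [if_neg (by omega), min_eq_right (by omega), if_neg (by omega)]
  · rw [if_pos h, min_eq_left (by omega), if_pos h]

lemma sep_P (H : Good R σ) {x y : ℂ} (hx : x ∈ N.P) (hy : y ∈ N.P) (hne : x ≠ y) :
    1 ≤ ‖x - y‖ := by
  obtain ⟨g, k, j, rfl⟩ := hx
  obtain ⟨g', k', j', rfl⟩ := hy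
  rw [N.p_min k, N.p_min k'] at *
  rcases N.sep_all H.h0 H.h1 (min_le_right k (R+1)) (min_le_right k' (R+1)) j j' g g' with h | h
  · exact absurd h.1 hne
  · exact h

lemma p_re_lo (H : Good R σ) (k j : ℕ) : (j:ℝ) ≤ (N.p k j).re := by
  have h1 : ∀ k, (j:ℝ) + hh ≤ (N.b k j).re := by
    intro k
    have h2 := N.C_lo j
    have h3 := N.C_lo (j+k)
    push_cast at h3
    have : (0:ℝ) ≤ k := Nat.cast_nonneg k
    rw [b_re]; linarith
  have h4 := hh_lo
  unfold p
  split_ifs with h
  · have := h1 k; linarith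
  · rw [r_re]
    have := h1 R
    have := N.t_hi H.h0 j
    have := H.h1
    linarith

lemma exists_far (H : Good R σ) (S : Finset ℂ) : ∃ J : ℕ, ∀ (g : Fin 6) (k j : ℕ), J + 1 ≤ j →
    act g (N.p k j) ∉ S := by
  refine ⟨⌈∑ z ∈ S, ‖z‖⌉₊, ?_⟩
  intro g k j hj hmem
  have h1 : ‖act g (N.p k j)‖ ≤ ∑ z ∈ S, ‖z‖ :=
    single_le_sum (f := fun z : ℂ => ‖z‖) (fun z _ => norm_nonneg z) hmem
  rw [norm_act] at h1
  have h2 := N.p_re_lo H k j
  have h3 := Complex.re_le_norm (N.p k j)
  have h4 := Nat.le_ceil (∑ z ∈ S, ‖z‖)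
  have h5 : ((⌈∑ z ∈ S, ‖z‖⌉₊ : ℕ) : ℝ) + 1 ≤ j := by exact_mod_cast hj
  linarith

lemma exists_free (H : Good R σ) (S : Finset ℂ) (hS : S.card < R) :
    ∃ K, 1 ≤ K ∧ K ≤ R ∧ ∀ (g : Fin 6) (j : ℕ), act g (N.p K j) ∉ S := by
  by_contra hcon
  push Not at hcon
  have h1 : ∀ K ∈ Finset.Icc 1 R, ∃ z ∈ S, ∃ (g : Fin 6) (j : ℕ), z = act g (N.p K j) := by
    intro K hK
    rw [Finset.mem_Icc] at hK
    obtain ⟨g, j, h⟩ := hcon K hK.1 hK.2
    exact ⟨_, h, g, j, rfl⟩
  choose! f hf using h1
  have hinj : Set.InjOn f (Finset.Icc 1 R : Finset ℕ) := by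
    intro a ha b hb hab
    have ha' := Finset.mem_Icc.1 (Finset.mem_coe.1 ha)
    have hb' := Finset.mem_Icc.1 (Finset.mem_coe.1 hb)
    obtain ⟨_, g, j, h2⟩ := hf a (Finset.mem_coe.1 ha)
    obtain ⟨_, g', j', h3⟩ := hf b (Finset.mem_coe.1 hb)
    rcases N.sep_all H.h0 H.h1 (k := a) (k' := b) (by omega) (by omega) j j' g g' with h | h
    · exact h.2.1
    · rw [← h2, ← h3, hab, sub_self, norm_zero] at h
      norm_num at h
  have h4 := Finset.card_le_card_of_injOn f (fun a ha => (hf a ha).1) hinj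
  simp at h4
  omega

section FO

variable (d : ℂ → ℂ)

/-- displacement differences satisfy the strut inequalities -/
def Strut : Prop := ∀ x ∈ N.P, ∀ y ∈ N.P, ‖x - y‖ = 1 → 0 ≤ dt (x - y) (d x - d y)

variable {d}

lemma strut_act (hs : N.Strut d) {x y v : ℂ} (g : Fin 6) (hx : act g x ∈ N.P)
    (hy : act g y ∈ N.P) (hv : x - y = v) (h1 : dt v v = 1) :
    0 ≤ dt (act g v) (d (act g x) - d (act g y)) := by
  have := hs _ hx _ hy (by rw [norm_act_sub, norm_eq_one_iff, hv]; exact h1)
  rwa [← act_sub, hv] at this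

lemma strut_fd (hs : N.Strut d) {x y v : ℂ} (hx : ∀ g, act g x ∈ N.P)
    (hy : ∀ g, act g y ∈ N.P) (hv : x - y = v) (h1 : dt v v = 1) :
    0 ≤ dt v (fd d x - fd d y) := by
  rw [dt_fd_sub]
  exact sum_nonneg (fun g _ => N.strut_act hs g (hx g) (hy g) hv h1)

lemma strut_zero (hs : N.Strut d) {x y v : ℂ} (hx : ∀ g, act g x ∈ N.P)
    (hy : ∀ g, act g y ∈ N.P) (hv : x - y = v) (h1 : dt v v = 1)
    (h0 : dt v (fd d x - fd d y) = 0) (g : Fin 6) :
    dt (act g v) (d (act g x) - d (act g y)) = 0 := by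
  rw [dt_fd_sub, sum_eq_zero_iff_of_nonneg
    (fun g _ => N.strut_act hs g (hx g) (hy g) hv h1)] at h0
  exact h0 g (mem_univ g)

/-- the wall of direction 60 degrees -/
lemma wall6 (hs : N.Strut d) {x : ℂ} (hx : ∀ g, act g x ∈ N.P) (h : dt nw x = 1/2) :
    0 ≤ dt nw (fd d x) := by
  have h3 : act 3 x = x - nw := by rw [act3_eq, h]; norm_num
  have key : ∀ g, 0 ≤ dt (act g nw) (d (act g x) - d (act (m6 g) x)) := by
    intro g
    have e : act g x - act (m6 g) x = act g nw := by
      rw [act_m6, h3, act_sub]; ring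
    have := hs _ (hx g) _ (hx (m6 g)) (by rw [e, norm_act, norm_eq_one_iff]; exact dt_nw_self)
    rwa [e] at this
  have h4 := sum_nonneg (fun g (_ : g ∈ (univ : Finset (Fin 6))) => key g)
  have h5 : ∑ g, dt (act g nw) (d (act g x) - d (act (m6 g) x)) = 2 * dt nw (fd d x) := by
    have h6 : ∑ g, dt (act g nw) (d (act (m6 g) x)) = - dt nw (fd d x) := by
      rw [dt_fd, ← sum_m6 (fun g => dt (act g nw) (d (act g x))), ← sum_neg_distrib]
      apply sum_congr rfl
      intro g _
      have : act (m6 g) nw = - act g nw := by rw [act_m6, act3_nw, act_neg]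
      rw [this, dt_neg_left]; ring
    have h7 : ∀ g : Fin 6, dt (act g nw) (d (act g x) - d (act (m6 g) x))
        = dt (act g nw) (d (act g x)) - dt (act g nw) (d (act (m6 g) x)) :=
      fun g => dt_sub_right _ _ _
    rw [sum_congr rfl (fun g _ => h7 g), sum_sub_distrib, h6, ← dt_fd]; ring
  linarith

lemma act1_I : act 1 Complex.I = -Complex.I := by
  rw [act1_eq]; apply Complex.ext <;> simp

/-- the axis -/
lemma wall0 (hs : N.Strut d) {x : ℂ} (hx : ∀ g, act g x ∈ N.P) (h : x.im = 1/2) :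
    0 ≤ (fd d x).im := by
  have h3 : act 1 x = x - Complex.I := by
    rw [act1_eq]; apply Complex.ext <;> simp [h]; norm_num
  have key : ∀ g, 0 ≤ dt (act g Complex.I) (d (act g x) - d (act (m0 g) x)) := by
    intro g
    have e : act g x - act (m0 g) x = act g Complex.I := by
      rw [act_m0, h3, act_sub]; ring
    have := hs _ (hx g) _ (hx (m0 g)) (by rw [e, norm_act]; simp)
    rwa [e] at this
  have h4 := sum_nonneg (fun g (_ : g ∈ (univ : Finset (Fin 6))) => key g)
  have h5 : ∑ g, dt (act g Complex.I) (d (act g x) - d (act (m0 g) x))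
      = 2 * dt Complex.I (fd d x) := by
    have h6 : ∑ g, dt (act g Complex.I) (d (act (m0 g) x)) = - dt Complex.I (fd d x) := by
      rw [dt_fd, ← sum_m0 (fun g => dt (act g Complex.I) (d (act g x))), ← sum_neg_distrib]
      apply sum_congr rfl
      intro g _
      have : act (m0 g) Complex.I = - act g Complex.I := by rw [act_m0, act1_I, act_neg]
      rw [this, dt_neg_left]; ring
    have h7 : ∀ g : Fin 6, dt (act g Complex.I) (d (act g x) - d (act (m0 g) x))
        = dt (act g Complex.I) (d (act g x)) - dt (act g Complex.I) (d (act (m0 g) x)) :=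
      fun g => dt_sub_right _ _ _
    rw [sum_congr rfl (fun g _ => h7 g), sum_sub_distrib, h6, ← dt_fd]; ring
  have h8 : dt Complex.I (fd d x) = (fd d x).im := by simp [dt]
  linarith

/-- the corner disc -/
lemma corner_fd {x : ℂ} (h : dt nw x = 0) : dt nw (fd d x) = 0 := by
  have h3 : act 3 x = x := by rw [act3_eq, h]; simp
  have h6 : dt nw (fd d x) = - dt nw (fd d x) := by
    conv_lhs => rw [dt_fd, ← sum_m6 (fun g => dt (act g nw) (d (act g x)))]
    rw [dt_fd, ← sum_neg_distrib]
    apply sum_congr rfl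
    intro g _
    have e1 : act (m6 g) nw = - act g nw := by rw [act_m6, act3_nw, act_neg]
    have e2 : act (m6 g) x = act g x := by rw [act_m6, h3]
    rw [e1, e2, dt_neg_left]
  linarith

lemma nw_ew_expand (z : ℂ) : z = (dt ew z) • ew + (dt nw z) • nw := by
  have h := hh_sq
  apply Complex.ext
  · simp [dt]; linear_combination (-z.re) * h
  · simp [dt]; linear_combination (-z.im) * h

lemma corner_eq (x : ℂ) (h : dt nw x = 0) :
    N.Q 0 * dt (fd d x) (N.et 0) = N.T 0 * dt (fd d x) (uv σ 0) := by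
  have h1 := corner_fd (d := d) h
  have h2 := nw_ew_expand (fd d x)
  rw [h1, zero_smul, add_zero] at h2
  rw [h2, dt_smul_left, dt_smul_left]
  have h3 := N.eqcorner
  linear_combination (dt ew (fd d x)) * h3

/-- first order rigidity -/
theorem fo (H : Good R σ) (S : Finset ℂ) (hS : S.card < R) (hd : ∀ z, z ∉ S → d z = 0)
    (hs : N.Strut d) : ∀ z ∈ N.P, d z = 0 := by
  obtain ⟨J, hJ⟩ := N.exists_far H S
  obtain ⟨K, hK1, hKR, hK⟩ := N.exists_free H S hS
  set D : ℕ → ℕ → ℂ := fun k j => fd d (N.p k j) with hD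
  have Dz : ∀ k j, (∀ g, act g (N.p k j) ∉ S) → D k j = 0 := by
    intro k j h
    simp only [hD, fd]
    apply Complex.ext <;> simp [hd _ (h _), dt]
  have hJD : ∀ k j, J + 1 ≤ j → D k j = 0 := fun k j hj => Dz k j (fun g => hJ g k j hj)
  have hDK : ∀ j, D K j = 0 := fun j => Dz K j (fun g => hK g j)
  have memp : ∀ k j g, act g (N.p k j) ∈ N.P := fun k j g => N.mem_P g k j
  have ea : ∀ k, k < R → ∀ j, N.p (k+1) j - N.p k j = N.av (j+k) := by
    intro k hk j
    rw [N.p_b (by omega : k+1 ≤ R), N.p_b (by omega : k ≤ R), edge_a]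
  have eb : ∀ k, k < R → ∀ j, N.p (k+1) j - N.p k (j+1) = N.bv j := by
    intro k hk j
    rw [N.p_b (by omega : k+1 ≤ R), N.p_b (by omega : k ≤ R), edge_b]
  have sa : ∀ k, k < R → ∀ j, 0 ≤ dt (N.av (j+k)) (D (k+1) j - D k j) := fun k hk j =>
    N.strut_fd hs (memp _ _) (memp _ _) (ea k hk j) (N.dt_av _)
  have sb : ∀ k, k < R → ∀ j, 0 ≤ dt (N.bv j) (D (k+1) j - D k (j+1)) := fun k hk j =>
    N.strut_fd hs (memp _ _) (memp _ _) (eb k hk j) (N.dt_bv _)
  have sw : ∀ k, k < R → 0 ≤ dt nw (D k 0) := by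
    intro k hk
    apply N.wall6 hs (memp _ _)
    rw [N.p_b (by omega : k ≤ R), N.nw_b_col0 (by omega)]
  have s0 : ∀ j, 0 ≤ (D 0 j).im := by
    intro j
    apply N.wall0 hs (memp _ _)
    rw [N.p_b (Nat.zero_le R), b_im]; simp
  -- below
  have below := N.work_below hK1 (F := N.FB) (G := N.GB) (m := N.mB') (V := N.VB)
    (fun k hk j => N.FB_pos H k (by omega) j) (fun k hk j => N.GB_pos H k (by omega) j)
    (fun k hk => N.mB'_pos H k (by omega)) (N.VB_pos H) (N.eqB0 H)
    (fun k hk j => N.eqBk H k (by omega) j) (D := D) hJD hDK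
    (fun k hk => sa k (by omega)) (fun k hk => sb k (by omega)) (fun k hk => sw k (by omega)) s0
  -- above
  have er : ∀ j, N.p (R+1) j - N.p R j = N.et j := by
    intro j; rw [N.p_r, N.p_b (le_refl R), edge_q]
  have eu : ∀ j, N.p (R+1) (j+1) - N.p (R+1) j = uv σ j := by
    intro j; rw [N.p_r, N.p_r, edge_t]
  have sq : ∀ j, 0 ≤ dt (N.et j) (D (R+1) j - D R j) := fun j =>
    N.strut_fd hs (memp _ _) (memp _ _) (er j) (N.dt_et _)
  have st : ∀ j, 0 ≤ dt (uv σ j) (D (R+1) (j+1) - D (R+1) j) := fun j =>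
    N.strut_fd hs (memp _ _) (memp _ _) (eu j) (dt_uv H.h0 H.h1 _)
  have nwr : dt nw (N.p (R+1) 0) = 0 := by rw [N.p_r, nw_r0]
  have above := N.work_above hK1 hKR (F := N.FA (mu R)) (G := N.GA (mu R)) (m := fun _ => mu R)
    (Q := N.Q) (T := N.T) (N.FA_pos H) (N.GA_pos H) (fun k hk => (mu_pos H).le) (N.Q_pos H)
    (N.T_pos H) (fun k hk j => N.eqA_k (mu R) H k hk j) (fun k hk j => N.eqA_R (mu R) H k hk j)
    (N.eqr H) (D := D) (N.corner_eq _ nwr) hJD hDK (fun k _ hk => sa k hk)
    (fun k _ hk => sb k hk) (fun k _ hk => sw k hk) sq st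
  obtain ⟨ab, aq, at'⟩ := above
  have crab : ∀ p l, cr (N.av p) (N.bv l) ≠ 0 := fun p l => by
    have := N.cr_ge H p l; linarith
  -- rows below
  have rowsB : ∀ n, n ≤ K → ∀ g j, d (act g (N.p (K-n) j)) = 0 := by
    intro n
    induction n with
    | zero => intro _ g j; exact hd _ (hK g j)
    | succ n ih =>
      intro hn g j
      have ih' := ih (by omega)
      obtain ⟨k, hk⟩ : ∃ k, k = K - (n+1) := ⟨_, rfl⟩
      have hk1 : K - n = k + 1 := by omega
      rw [hk1] at ih'
      rw [← hk]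
      have hkR : k < R := by omega
      obtain ⟨b1, b2, b3⟩ := below k (by omega)
      have za : ∀ g j, dt (act g (N.av (j+k))) (d (act g (N.p k j))) = 0 := by
        intro g j
        have := N.strut_zero hs (memp (k+1) j) (memp k j) (ea k hkR j) (N.dt_av _) (b1 j) g
        rw [ih' g j, zero_sub, dt_neg_right] at this
        linarith
      rcases j with _ | j
      · -- column 0
        have hav : N.av (0+k) = ew := by
          apply Complex.ext
          · rw [av_re, N.c0 (0+k) (by omega)]; rfl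
          · rw [av_im, N.s0 (0+k) (by omega)]; rfl
        -- column 1 of the same row is at rest
        have col1 : ∀ g, d (act g (N.p k 1)) = 0 := by
          intro g
          have z2 := N.strut_zero hs (memp (k+1) 0) (memp k 1) (eb k hkR 0) (N.dt_bv _) (b2 0) g
          rw [ih' g 0, zero_sub, dt_neg_right] at z2
          exact zero_of_two_act g (crab (1+k) 0) (za g 1) (by linarith)
        have horiz : N.p k 0 - N.p k 1 = -1 := by
          rw [N.p_b (by omega : k ≤ R), N.p_b (by omega : k ≤ R)]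
          have c1 := N.c0 0 H.hR
          have s1 := N.s0 0 H.hR
          have c2 := N.c0 k hkR
          have s2 := N.s0 k hkR
          have hC1 : N.C 1 = N.c 0 := by simpa [C_zero] using N.C_succ 0
          have hS1 : N.S 1 = N.s 0 := by simpa [S_zero] using N.S_succ 0
          have hCk : N.C (k+1) = N.C k + N.c k := N.C_succ k
          have hSk : N.S (k+1) = N.S k + N.s k := N.S_succ k
          apply Complex.ext
          · rw [Complex.sub_re, b_re, b_re, show (1:ℕ) + k = k + 1 by ring, hCk,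
              hC1, C_zero, c1, c2, zero_add]
            simp; ring
          · rw [Complex.sub_im, b_im, b_im, show (1:ℕ) + k = k + 1 by ring, hSk,
              hS1, S_zero, s1, s2, zero_add]
            simp; ring
        have hy : ∀ g, dt (act g nw) (d (act g (N.p k 0))) ≤ 0 := by
          intro g
          have h1 := N.strut_act hs g (memp k 0 g) (memp k 1 g) horiz (by simp [dt])
          rw [col1 g, sub_zero, dt_act_left] at h1
          have h2 := za g 0
          rw [hav, dt_act_left] at h2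
          rw [dt_act_left]
          set w := act (invT g) (d (act g (N.p k 0)))
          have h3 := nw_ew_expand w
          rw [h2, zero_smul, zero_add] at h3
          have h4 : dt (-1) w = - (dt nw w * hh) := by
            conv_lhs => rw [h3]
            simp [dt]
          rw [h4] at h1
          have h5 := hh_pos
          by_contra hc
          push Not at hc
          have := mul_pos hc h5
          linarith
        have hsum : ∑ g, dt (act g nw) (d (act g (N.p k 0))) = 0 := by
          rw [← dt_fd]; exact b3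
        have hz : ∀ g ∈ (univ : Finset (Fin 6)), dt (act g nw) (d (act g (N.p k 0))) = 0 :=
          (sum_eq_zero_iff_of_nonpos (fun g _ => hy g)).1 hsum
        have h6 := za g 0
        rw [hav] at h6
        apply zero_of_two_act g _ h6 (hz g (mem_univ g))
        have := hh_sq
        simp only [cr, ew_re, ew_im, nw_re, nw_im]
        nlinarith
      · have z2 := N.strut_zero hs (memp (k+1) j) (memp k (j+1)) (eb k hkR j) (N.dt_bv _) (b2 j) g
        rw [ih' g j, zero_sub, dt_neg_right] at z2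
        exact zero_of_two_act g (crab (j+1+k) j) (za g (j+1)) (by linarith)
  -- rows above
  have rowsA : ∀ n, K + n ≤ R → ∀ g j, d (act g (N.p (K+n) j)) = 0 := by
    intro n
    induction n with
    | zero => intro _ g j; exact hd _ (hK g j)
    | succ n ih =>
      intro hn g j
      have ih' := ih (by omega)
      rw [← add_assoc]
      obtain ⟨b1, b2⟩ := ab (K+n) (by omega) (by omega)
      have z1 := N.strut_zero hs (memp (K+n+1) j) (memp (K+n) j) (ea (K+n) (by omega) j)
        (N.dt_av _) (b1 j) g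
      have z2 := N.strut_zero hs (memp (K+n+1) j) (memp (K+n) (j+1)) (eb (K+n) (by omega) j)
        (N.dt_bv _) (b2 j) g
      rw [ih' g j, sub_zero] at z1
      rw [ih' g (j+1), sub_zero] at z2
      exact zero_of_two_act g (crab _ _) z1 z2
  have rowR : ∀ g j, d (act g (N.p R j)) = 0 := by
    have := rowsA (R-K) (by omega)
    rwa [show K + (R-K) = R by omega] at this
  -- the chain
  have zq : ∀ g j, dt (act g (N.et j)) (d (act g (N.p (R+1) j))) = 0 := by
    intro g j
    have := N.strut_zero hs (memp (R+1) j) (memp R j) (er j) (N.dt_et _) (aq j) g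
    rwa [rowR g j, sub_zero] at this
  have chain : ∀ j g, d (act g (N.p (R+1) j)) = 0 := by
    intro j
    induction j with
    | zero =>
      intro g
      have h1 := zq g 0
      have h2 := zq (m6 g) 0
      have h3 : act 3 (N.p (R+1) 0) = N.p (R+1) 0 := by rw [act3_eq, nwr]; simp
      rw [act_m6, act_m6, h3] at h2
      apply zero_of_two_act g _ h1 h2
      have := hh_pos
      simp [cr, mA, mB, mC, mD, N.t0, N.q0]
      exact this.ne'
    | succ j ih =>
      intro g
      have h1 := N.strut_zero hs (memp (R+1) (j+1)) (memp (R+1) j) (eu j) (dt_uv H.h0 H.h1 _)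
        (at' j) g
      rw [ih g, sub_zero] at h1
      apply zero_of_two_act g _ h1 (zq g (j+1))
      have := N.cr_ue_lo H j (j+1)
      linarith
  -- conclusion
  intro z hz
  obtain ⟨g, k, j, rfl⟩ := hz
  rcases Nat.lt_or_ge R k with h | h
  · rw [N.p_min, min_eq_right (by omega)]
    exact chain j g
  · rcases Nat.lt_or_ge K k with h2 | h2
    · have := rowsA (k-K) (by omega) g j
      rwa [show K + (k-K) = k by omega] at this
    · have := rowsB (K-k) (by omega) g j
      rwa [show K - (K-k) = k by omega] at this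

end FO

end Net

end Pool.Agent.H30.CB
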