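import Pool.Agent.H30.CB.Base

set_option autoImplicit false

namespace Pool.Agent.H30.CB

open Filter Topology

/-- extension by zero -/
noncomputable def ext0 (S : Finset ℂ) (v : S → ℂ) (z : ℂ) : ℂ :=
  if h : z ∈ S then v ⟨z, h⟩ else 0

lemma ext0_norm (S : Finset ℂ) (v : S → ℂ) (z : ℂ) : ‖ext0 S v z‖ ≤ ‖v‖ := by
  unfold ext0
  split_ifs with h
  · exact norm_le_pi_norm v ⟨z, h⟩
  · simp

lemma ext0_tendsto (S : Finset ℂ) (u : ℕ → S → ℂ) (v : S → ℂ) (h : Tendsto u atTop (𝓝 v))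
    (z : ℂ) : Tendsto (fun n => ext0 S (u n) z) atTop (𝓝 (ext0 S v z)) := by
  unfold ext0
  split_ifs with hz
  · exact (tendsto_pi_nhds.1 h) ⟨z, hz⟩
  · exact tendsto_const_nhds

lemma continuous_dt (w : ℂ) : Continuous (fun v => dt w v) := by
  unfold dt
  fun_prop

/-- first order strut rigidity implies that the discs of `S` are locked -/
theorem locked (P : Set ℂ) (S : Finset ℂ) (hSP : ∀ z ∈ S, z ∈ P)
    (fo : ∀ d : ℂ → ℂ, (∀ z, z ∉ S → d z = 0) →
      (∀ x ∈ P, ∀ y ∈ P, ‖x - y‖ = 1 → 0 ≤ dt (x - y) (d x - d y)) → ∀ z ∈ P, d z = 0)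
    (f : ℂ → ℝ → ℂ) (hc : ∀ x ∈ S, ContinuousOn (f x) (Set.Icc 0 1))
    (h0 : ∀ x ∈ S, f x 0 = x) (hfix : ∀ x ∈ P, x ∉ S → ∀ t ∈ Set.Icc (0:ℝ) 1, f x t = x)
    (hsep : ∀ t ∈ Set.Icc (0:ℝ) 1, ∀ x ∈ P, ∀ y ∈ P, x ≠ y → 1 ≤ ‖f x t - f y t‖) :
    ∀ x ∈ S, ∀ t ∈ Set.Icc (0:ℝ) 1, f x t = x := by
  by_contra hcon
  push Not at hcon
  obtain ⟨x0, hx0, t0, ht0, hne⟩ := hcon
  set e : ℝ → (S → ℂ) := fun t x => f x t - x with he
  have hcont : ContinuousOn (fun t => ‖e t‖) (Set.Icc 0 1) := by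
    apply ContinuousOn.norm
    rw [continuousOn_pi]
    intro x
    exact (hc x x.2).sub continuousOn_const
  have hM0 : ‖e 0‖ = 0 := by
    rw [norm_eq_zero]
    funext x
    simp [he, h0 x x.2]
  have hM1 : 0 < ‖e t0‖ := by
    have h1 : ‖e t0 ⟨x0, hx0⟩‖ ≤ ‖e t0‖ := norm_le_pi_norm _ _
    have h2 : 0 < ‖e t0 ⟨x0, hx0⟩‖ := by
      rw [norm_pos_iff]
      simpa [he, sub_eq_zero] using hne
    linarith
  have hivt := intermediate_value_Icc ht0.1 (hcont.mono (Set.Icc_subset_Icc_right ht0.2))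
  have hex : ∀ n : ℕ, ∃ t ∈ Set.Icc (0:ℝ) 1, ‖e t‖ = ‖e t0‖ / (n+1) := by
    intro n
    have hn : (0:ℝ) < n + 1 := by positivity
    have : ‖e t0‖ / (n+1) ∈ Set.Icc (‖e 0‖) (‖e t0‖) := by
      rw [hM0]
      constructor
      · positivity
      · rw [div_le_iff₀ hn]
        have : (0:ℝ) ≤ n := Nat.cast_nonneg n
        nlinarith
    obtain ⟨t, ht, h⟩ := hivt this
    exact ⟨t, ⟨ht.1, le_trans ht.2 ht0.2⟩, h⟩
  choose tn htn htn' using hex
  set U : ℕ → (S → ℂ) := fun n => (‖e (tn n)‖)⁻¹ • e (tn n) with hU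
  have hpos : ∀ n, 0 < ‖e (tn n)‖ := fun n => by rw [htn']; positivity
  have hUn : ∀ n, ‖U n‖ = 1 := by
    intro n
    simp only [hU]
    rw [norm_smul, norm_inv, norm_norm, inv_mul_cancel₀ (hpos n).ne']
  have hcomp : IsCompact (Metric.sphere (0 : S → ℂ) 1) := isCompact_sphere 0 1
  obtain ⟨u, hu, φ, hφ, hlim⟩ := hcomp.tendsto_subseq (x := U)
    (fun n => by rw [mem_sphere_zero_iff_norm]; exact hUn n)
  rw [mem_sphere_zero_iff_norm] at hu
  have hzero := fo (ext0 S u) (fun z hz => by simp [ext0, hz]) (by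
    intro x hx y hy hxy
    have hne' : x ≠ y := by
      rintro rfl; simp at hxy
    -- the inequality at time `tn n`
    have key : ∀ n, 0 ≤ dt (x - y) (ext0 S (U n) x - ext0 S (U n) y) + 2 * (‖e t0‖ / (n+1)) := by
      intro n
      have hf : ∀ z ∈ P, f z (tn n) = z + (‖e (tn n)‖) • ext0 S (U n) z := by
        intro z hz
        unfold ext0
        split_ifs with h
        · simp only [hU, Pi.smul_apply, smul_smul]
          rw [mul_inv_cancel₀ (hpos n).ne', one_smul]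
          simp [he]
        · rw [hfix z hz h (tn n) (htn n)]; simp
      have h1 := hsep (tn n) (htn n) x hx y hy hne'
      rw [hf x hx, hf y hy, one_le_norm_iff] at h1
      set M := ‖e (tn n)‖
      set a := ext0 S (U n) x
      set b := ext0 S (U n) y
      have h2 : x + M • a - (y + M • b) = (x - y) + M • (a - b) := by
        rw [smul_sub]; abel
      rw [h2, dt_add_left, dt_add_right, dt_add_right, dt_smul_left, dt_smul_left, dt_smul_right,
        dt_smul_right, dt_comm (a - b) (x - y)] at h1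
      have h3 : dt (x - y) (x - y) = 1 := (norm_eq_one_iff _).1 hxy
      rw [h3] at h1
      have ha : ‖a‖ ≤ 1 := le_trans (ext0_norm S (U n) x) (hUn n).le
      have hb : ‖b‖ ≤ 1 := le_trans (ext0_norm S (U n) y) (hUn n).le
      have hab : ‖a - b‖ ≤ 2 := by
        have := norm_sub_le a b; linarith
      have h4 : dt (a - b) (a - b) ≤ 4 := by
        rw [dt_self]; nlinarith [norm_nonneg (a - b)]
      have hMp : 0 < M := hpos n
      have hM' : M = ‖e t0‖ / (n+1) := htn' n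
      rw [← hM']
      have h5 : 0 ≤ M * (2 * dt (x - y) (a - b) + M * dt (a - b) (a - b)) := by linarith
      have h6 : 0 ≤ 2 * dt (x - y) (a - b) + M * dt (a - b) (a - b) := by
        by_contra hc'
        push Not at hc'
        have := mul_neg_of_pos_of_neg hMp hc'
        linarith
      have h7 : M * dt (a - b) (a - b) ≤ M * 4 := mul_le_mul_of_nonneg_left h4 hMp.le
      linarith
    have lim1 : Tendsto (fun n => dt (x - y) (ext0 S (U (φ n)) x - ext0 S (U (φ n)) y)) atTop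
        (𝓝 (dt (x - y) (ext0 S u x - ext0 S u y))) := by
      apply ((continuous_dt (x - y)).tendsto _).comp
      exact (ext0_tendsto S _ u hlim x).sub (ext0_tendsto S _ u hlim y)
    have lim2 : Tendsto (fun n : ℕ => 2 * (‖e t0‖ / ((φ n : ℕ) + 1))) atTop (𝓝 0) := by
      have h1 : Tendsto (fun n : ℕ => 2 * (‖e t0‖ * (1 / ((n:ℝ) + 1)))) atTop
          (𝓝 (2 * (‖e t0‖ * 0))) :=
        (tendsto_one_div_add_atTop_nhds_zero_nat.const_mul _).const_mul _
      rw [mul_zero, mul_zero] at h1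
      have h2 := h1.comp hφ.tendsto_atTop
      refine h2.congr (fun n => ?_)
      simp only [Function.comp]
      ring
    have lim3 := lim1.add lim2
    rw [add_zero] at lim3
    exact ge_of_tendsto' lim3 (fun n => key (φ n)))
  have hu0 : u = 0 := by
    funext x
    have := hzero x (hSP x x.2)
    simpa [ext0] using this
  rw [hu0] at hu
  simp at hu

end Pool.Agent.H30.CB
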