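import Pool.Agent.H30.CB.FO
import Pool.Agent.H30.CB.Ex
import Pool.Agent.H30.CB.Lock

set_option autoImplicit false

namespace Pool.Agent.H30.CB

open MeasureTheory Finset

abbrev E2 := EuclideanSpace ℝ (Fin 2)

/-- the standard isometry -/
noncomputable def ψ : ℂ ≃ₗᵢ[ℝ] E2 := Complex.orthonormalBasisOneI.repr

noncomputable def toE (z : ℂ) : E2 := (2:ℝ) • ψ z
noncomputable def ofE (x : E2) : ℂ := (1/2:ℝ) • ψ.symm x

lemma toE_ofE (x : E2) : toE (ofE x) = x := by
  unfold toE ofE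
  rw [map_smul, LinearIsometryEquiv.apply_symm_apply, smul_smul]; norm_num
lemma ofE_toE (z : ℂ) : ofE (toE z) = z := by
  unfold toE ofE
  rw [map_smul, LinearIsometryEquiv.symm_apply_apply, smul_smul]; norm_num

lemma norm_ofE_sub (x y : E2) : ‖ofE x - ofE y‖ = dist x y / 2 := by
  unfold ofE
  rw [← smul_sub, ← map_sub, norm_smul, LinearIsometryEquiv.norm_map, dist_eq_norm]
  norm_num; ring

lemma norm_toE (z : ℂ) : ‖toE z‖ = 2 * ‖z‖ := by
  unfold toE
  rw [norm_smul, LinearIsometryEquiv.norm_map]; norm_num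

lemma continuous_ofE : Continuous ofE := by
  unfold ofE
  exact Continuous.const_smul ψ.symm.continuous (1/2:ℝ)

lemma ofE_injective : Function.Injective ofE := by
  intro x y h
  rw [← toE_ofE x, ← toE_ofE y, h]

/-- a choice of parameters -/
lemma exists_good (R : ℕ) (hR : 1 ≤ R) : ∃ σ : ℝ, Good R σ := by
  have h1 : (1:ℝ) ≤ R := by exact_mod_cast hR
  have h2 : (1:ℝ) ≤ 2 ^ R := one_le_pow₀ (by norm_num)
  have h3 : (1:ℝ) ≤ R * 2 ^ R := by nlinarith
  refine ⟨1 / (2000 * R * 2 ^ R), hR, by positivity, ?_, ?_⟩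
  · rw [div_le_div_iff₀ (by positivity) (by norm_num)]
    nlinarith
  · have hM : (1:ℝ) ≤ 2000 * R * 2 ^ R := by nlinarith
    rw [div_pow, one_pow, div_mul_eq_mul_div, one_mul, div_le_one (by positivity)]
    nlinarith

variable {R : ℕ} {σ : ℝ}

/-- the packing of unit discs -/
def packing (N : Net R σ) : Set E2 := {x | ofE x ∈ N.P}

lemma packing_sep (N : Net R σ) (H : Good R σ) :
    ∀ x ∈ packing N, ∀ y ∈ packing N, x ≠ y → 2 ≤ dist x y := by
  intro x hx y hy hne
  have h := N.sep_P H hx hy (fun h => hne (ofE_injective h))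
  rw [norm_ofE_sub] at h
  linarith

lemma packing_nonempty (N : Net R σ) : (packing N).Nonempty := by
  refine ⟨toE (act 0 (N.p 0 0)), ?_⟩
  show ofE _ ∈ N.P
  rw [ofE_toE]
  exact N.mem_P 0 0 0

lemma packing_locked (N : Net R σ) (H : Good R σ) (S : Finset E2)
    (hS : (↑S : Set E2) ⊆ packing N) (hcard : S.card < R)
    (f : E2 → ℝ → E2) (hc : ∀ x ∈ S, ContinuousOn (f x) (Set.Icc (0:ℝ) 1))
    (h0 : ∀ x ∈ S, f x 0 = x) (hfix : ∀ x ∈ packing N, x ∉ S → ∀ t : ℝ, f x t = x)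
    (hsep : ∀ t ∈ Set.Icc (0:ℝ) 1, ∀ x ∈ packing N, ∀ y ∈ packing N, x ≠ y →
      2 ≤ dist (f x t) (f y t)) :
    ∀ x ∈ S, ∀ t ∈ Set.Icc (0:ℝ) 1, f x t = x := by
  classical
  set S' : Finset ℂ := S.image ofE with hS'
  have hcard' : S'.card < R := lt_of_le_of_lt Finset.card_image_le hcard
  have mem' : ∀ z, z ∈ S' ↔ toE z ∈ S := by
    intro z
    rw [hS', Finset.mem_image]
    constructor
    · rintro ⟨x, hx, rfl⟩; rwa [toE_ofE]
    · intro h; exact ⟨toE z, h, ofE_toE z⟩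
  have memP : ∀ z, z ∈ N.P → toE z ∈ packing N := by
    intro z hz
    show ofE _ ∈ N.P
    rwa [ofE_toE]
  have key := locked N.P S' (by
      intro z hz
      have := hS ((mem' z).1 hz)
      have h2 : ofE (toE z) ∈ N.P := this
      rwa [ofE_toE] at h2)
    (fun d hd hs => N.fo H S' hcard' hd hs)
    (fun z t => ofE (f (toE z) t))
    (by
      intro z hz
      exact continuous_ofE.comp_continuousOn (hc _ ((mem' z).1 hz)))
    (by
      intro z hz
      show ofE (f (toE z) 0) = z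
      rw [h0 _ ((mem' z).1 hz), ofE_toE])
    (by
      intro z hz hzS t ht
      show ofE (f (toE z) t) = z
      rw [hfix _ (memP z hz) (fun h => hzS ((mem' z).2 h)) t, ofE_toE])
    (by
      intro t ht x hx y hy hne
      have h1 := hsep t ht _ (memP x hx) _ (memP y hy) (fun h => hne (by
        rw [← ofE_toE x, ← ofE_toE y, h]))
      show 1 ≤ ‖ofE (f (toE x) t) - ofE (f (toE y) t)‖
      rw [norm_ofE_sub]; linarith)
  intro x hx t ht
  have h1 := key (ofE x) (by rw [mem', toE_ofE]; exact hx) t ht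
  simp only [toE_ofE] at h1
  exact ofE_injective h1

lemma packing_density (N : Net R σ) (H : Good R σ) (c : ℝ) (hc : 0 < c) :
    ∀ᶠ ρ in Filter.atTop,
      volume ((⋃ x ∈ packing N, Metric.closedBall x 1) ∩ Metric.closedBall (0 : E2) ρ)
        ≤ ENNReal.ofReal c * volume (Metric.closedBall (0 : E2) ρ) := by
  classical
  filter_upwards [Filter.eventually_ge_atTop (max 3 (12 * ((R:ℝ)+2) / c))] with ρ hρ
  have hρ3 : 3 ≤ ρ := le_trans (le_max_left _ _) hρ
  have hρc : 12 * ((R:ℝ)+2) / c ≤ ρ := le_trans (le_max_right _ _) hρ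
  have hρc' : 12 * ((R:ℝ)+2) ≤ c * ρ := by
    rw [div_le_iff₀ hc] at hρc; linarith
  set J : ℕ := ⌈ρ⌉₊ + 1 with hJ
  set I : Finset (Fin 6 × ℕ × ℕ) := Finset.univ ×ˢ (Finset.range (R+2) ×ˢ Finset.range J) with hI
  have hsub : ((⋃ x ∈ packing N, Metric.closedBall x 1) ∩ Metric.closedBall (0 : E2) ρ)
      ⊆ ⋃ i ∈ I, Metric.closedBall (toE (act i.1 (N.p i.2.1 i.2.2))) 1 := by
    rintro y ⟨hy1, hy2⟩
    simp only [Set.mem_iUnion] at hy1
    obtain ⟨x, hx, hxy⟩ := hy1
    obtain ⟨g, k, j, hz⟩ := hx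
    rw [N.p_min] at hz
    have hx' : x = toE (act g (N.p (min k (R+1)) j)) := by rw [← hz, toE_ofE]
    simp only [Set.mem_iUnion]
    refine ⟨(g, min k (R+1), j), ?_, ?_⟩
    · rw [hI]
      simp only [Finset.mem_product, Finset.mem_univ, Finset.mem_range, true_and]
      refine ⟨by omega, ?_⟩
      rw [Metric.mem_closedBall, dist_zero_right] at hy2
      rw [Metric.mem_closedBall, dist_eq_norm] at hxy
      have h1 : ‖x‖ ≤ ρ + 1 := by
        have : ‖x‖ ≤ ‖y‖ + ‖y - x‖ := by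
          have := norm_sub_norm_le x y
          rw [norm_sub_rev] at this
          linarith
        linarith
      rw [hx', norm_toE, norm_act] at h1
      have h2 := N.p_re_lo H (min k (R+1)) j
      have h3 := Complex.re_le_norm (N.p (min k (R+1)) j)
      have h4 : (j:ℝ) ≤ ρ := by
        have : 2 * (j:ℝ) ≤ ρ + 1 := by linarith
        linarith
      have h5 : (j:ℝ) ≤ (⌈ρ⌉₊ : ℝ) := le_trans h4 (Nat.le_ceil ρ)
      have h6 : j ≤ ⌈ρ⌉₊ := by exact_mod_cast h5
      omega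
    · simp only
      rw [← hx']; exact hxy
  have hfin : Module.finrank ℝ E2 = 2 := by simp
  have hball : ∀ x : E2, volume (Metric.closedBall x 1) = volume (Metric.ball (0 : E2) 1) := by
    intro x
    rw [Measure.addHaar_closedBall volume x (by norm_num : (0:ℝ) ≤ 1), hfin]
    simp
  have hcardI : I.card = 6 * ((R+2) * J) := by
    rw [hI]; simp [Finset.card_product]
  have h1 : volume ((⋃ x ∈ packing N, Metric.closedBall x 1) ∩ Metric.closedBall (0 : E2) ρ)
      ≤ ((6 * ((R+2) * J) : ℕ) : ENNReal) * volume (Metric.ball (0 : E2) 1) := by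
    calc volume ((⋃ x ∈ packing N, Metric.closedBall x 1) ∩ Metric.closedBall (0 : E2) ρ)
        ≤ volume (⋃ i ∈ I, Metric.closedBall (toE (act i.1 (N.p i.2.1 i.2.2))) 1) :=
          measure_mono hsub
      _ ≤ ∑ i ∈ I, volume (Metric.closedBall (toE (act i.1 (N.p i.2.1 i.2.2))) 1) :=
          measure_biUnion_finset_le _ _
      _ = ∑ i ∈ I, volume (Metric.ball (0 : E2) 1) := Finset.sum_congr rfl (fun i _ => hball _)
      _ = _ := by rw [Finset.sum_const, hcardI, nsmul_eq_mul]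
  refine le_trans h1 ?_
  rw [Measure.addHaar_closedBall volume (0 : E2) (by linarith : (0:ℝ) ≤ ρ), hfin,
    show ENNReal.ofReal c * (ENNReal.ofReal (ρ^2) * volume (Metric.ball (0:E2) 1))
      = ENNReal.ofReal c * ENNReal.ofReal (ρ^2) * volume (Metric.ball (0:E2) 1) from
      (mul_assoc _ _ _).symm]
  refine mul_le_mul' ?_ (le_refl _)
  rw [← ENNReal.ofReal_mul hc.le, ← ENNReal.ofReal_natCast]
  apply ENNReal.ofReal_le_ofReal
  have hJle : (J:ℝ) ≤ ρ + 2 := by
    rw [hJ]; push_cast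
    have := Nat.ceil_lt_add_one (show (0:ℝ) ≤ ρ by linarith)
    linarith
  push_cast
  have h2 : (J:ℝ) ≤ 2 * ρ := by linarith
  have h3 : (0:ℝ) ≤ (R:ℝ) + 2 := by positivity
  calc (6:ℝ) * (((R:ℝ)+2) * J) ≤ 6 * (((R:ℝ)+2) * (2 * ρ)) := by
        apply mul_le_mul_of_nonneg_left _ (by norm_num)
        exact mul_le_mul_of_nonneg_left h2 h3
    _ = (12 * ((R:ℝ)+2)) * ρ := by ring
    _ ≤ (c * ρ) * ρ := mul_le_mul_of_nonneg_right hρc' (by linarith)
    _ = c * ρ ^ 2 := by ring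

end Pool.Agent.H30.CB
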