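import Pool.Agent.H30.CB.Base

set_option autoImplicit false

namespace Pool.Agent.H30.CB

open Finset

/-- the negatives of the sines of the directions of the void chain -/
noncomputable def xs (σ : ℝ) (j : ℕ) : ℝ := σ ^ 2 / 2 ^ j

lemma xs_pos {σ : ℝ} (h : 0 < σ) (j : ℕ) : 0 < xs σ j := by unfold xs; positivity
lemma xs_nonneg (σ : ℝ) (j : ℕ) : 0 ≤ xs σ j := by unfold xs; positivity
lemma xs_succ (σ : ℝ) (j : ℕ) : xs σ (j+1) = xs σ j / 2 := by
  unfold xs; rw [pow_succ 2 j, div_div]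
lemma xs_zero (σ : ℝ) : xs σ 0 = σ ^ 2 := by simp [xs]
lemma xs_le (σ : ℝ) (j : ℕ) : xs σ j ≤ σ ^ 2 := by
  induction j with
  | zero => rw [xs_zero]
  | succ n ih => rw [xs_succ]; have := xs_nonneg σ n; linarith
lemma xs_sum (σ : ℝ) (j : ℕ) : ∑ l ∈ range j, xs σ l = 2 * σ ^ 2 - 2 * xs σ j := by
  induction j with
  | zero => simp [xs_zero]
  | succ n ih => rw [sum_range_succ, ih, xs_succ]; ring
lemma xs_sum_le (σ : ℝ) (j : ℕ) : ∑ l ∈ range j, xs σ l ≤ 2 * σ ^ 2 := by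
  rw [xs_sum]; have := xs_nonneg σ j; linarith
lemma xs_anti (σ : ℝ) {i j : ℕ} (h : i ≤ j) : xs σ j ≤ xs σ i := by
  induction h with
  | refl => exact le_refl _
  | step h ih => rw [Nat.succ_eq_add_one, xs_succ]; have := xs_nonneg σ i
                 rename_i m; have := xs_nonneg σ m; linarith
lemma xs_add (σ : ℝ) (i n : ℕ) : xs σ i = 2 ^ n * xs σ (i + n) := by
  unfold xs; rw [pow_add]; field_simp

/-- The data of the net: `c l`, `s l` are the cosine and the sine of the direction of the `l`-th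
family of bars, `(-t j, q j)` is the vector from the top disc of column `j` to the `j`-th disc of
the void chain. -/
structure Net (R : ℕ) (σ : ℝ) where
  c : ℕ → ℝ
  s : ℕ → ℝ
  t : ℕ → ℝ
  q : ℕ → ℝ
  c0 : ∀ l, l < R → c l = 1/2
  s0 : ∀ l, l < R → s l = hh
  cs : ∀ l, c l ^ 2 + s l ^ 2 = 1
  clo : ∀ l, 1/2 ≤ c l
  snn : ∀ l, 0 ≤ s l
  t0 : t 0 = 0
  q0 : q 0 = 1
  tq : ∀ j, t j ^ 2 + q j ^ 2 = 1
  qnn : ∀ j, 0 ≤ q j
  tnn : ∀ j, 0 ≤ t j
  tS : ∀ j, t (j+1) = t j + c j + c (j+R) - √(1 - xs σ j ^ 2)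
  qS : ∀ j, q (j+1) = q j - xs σ j + s j - s (j+R)

/-- the cosine of the directions of the void chain -/
noncomputable def ux (σ : ℝ) (j : ℕ) : ℝ := √(1 - xs σ j ^ 2)

lemma ux_le_one (σ : ℝ) (j : ℕ) : ux σ j ≤ 1 := by
  unfold ux
  apply Real.sqrt_le_one.2
  have := sq_nonneg (xs σ j); linarith

lemma ux_nonneg (σ : ℝ) (j : ℕ) : 0 ≤ ux σ j := Real.sqrt_nonneg _

lemma xs_small {σ : ℝ} (h0 : 0 < σ) (h1 : σ ≤ 1/100) (j : ℕ) : xs σ j ≤ 1/10000 := by
  have h2 := xs_le σ j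
  nlinarith

lemma ux_sq {σ : ℝ} (h0 : 0 < σ) (h1 : σ ≤ 1/100) (j : ℕ) : ux σ j ^ 2 = 1 - xs σ j ^ 2 := by
  unfold ux
  rw [Real.sq_sqrt]
  have h2 := xs_small h0 h1 j
  have h3 := xs_nonneg σ j
  nlinarith

lemma ux_lo {σ : ℝ} (h0 : 0 < σ) (h1 : σ ≤ 1/100) (j : ℕ) : 1 - xs σ j ^ 2 ≤ ux σ j := by
  have h := ux_sq h0 h1 j
  have h2 := ux_le_one σ j
  have h3 := ux_nonneg σ j
  nlinarith

lemma ux_lo' {σ : ℝ} (h0 : 0 < σ) (h1 : σ ≤ 1/100) (j : ℕ) : 1 - xs σ j ≤ ux σ j := by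
  have h := ux_lo h0 h1 j
  have h2 := xs_small h0 h1 j
  have h3 := xs_nonneg σ j
  nlinarith

namespace Net

variable {R : ℕ} {σ : ℝ} (N : Net R σ)

lemma s_le (l : ℕ) : N.s l ≤ hh := by
  have h1 := N.cs l
  have h2 := N.clo l
  have h3 := hh_sq
  have h4 := hh_pos
  have h5 := N.snn l
  nlinarith

lemma q_le (j : ℕ) : N.q j ≤ 1 := by
  have h := N.tq j
  have := sq_nonneg (N.t j)
  have := N.qnn j
  nlinarith

lemma Eid (j : ℕ) : (1 - N.q j) + ∑ l ∈ range R, (hh - N.s (j+l)) = ∑ l ∈ range j, xs σ l := by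
  induction j with
  | zero =>
    rw [N.q0]
    have : ∀ l ∈ range R, hh - N.s (0 + l) = 0 := by
      intro l hl
      rw [zero_add, N.s0 l (mem_range.1 hl)]; ring
    rw [sum_eq_zero this]; simp
  | succ n ih =>
    rw [sum_range_succ (fun l => xs σ l), ← ih, N.qS n]
    have e1 : ∑ l ∈ range (R+1), (hh - N.s (n + l))
        = ∑ l ∈ range R, (hh - N.s (n + l)) + (hh - N.s (n+R)) := sum_range_succ _ _
    have e2 : ∑ l ∈ range (R+1), (hh - N.s (n + l))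
        = ∑ l ∈ range R, (hh - N.s (n + (l+1))) + (hh - N.s (n+0)) := sum_range_succ' _ _
    have e3 : ∑ l ∈ range R, (hh - N.s (n + 1 + l)) = ∑ l ∈ range R, (hh - N.s (n + (l+1))) := by
      apply sum_congr rfl
      intro l _
      congr 2; ring
    rw [e3]
    rw [add_zero] at e2
    linarith

lemma win_le (j k : ℕ) (hk : k ≤ R) : ∑ l ∈ range k, (hh - N.s (j+l)) ≤ 2 * σ ^ 2 := by
  have h1 := N.Eid j
  have h2 := xs_sum_le σ j
  have h3 := N.q_le j
  have h4 : ∑ l ∈ range k, (hh - N.s (j+l)) ≤ ∑ l ∈ range R, (hh - N.s (j+l)) := by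
    apply sum_le_sum_of_subset_of_nonneg
    · exact range_subset_range.2 hk
    · intro l _ _
      have := N.s_le (j+l); linarith
  linarith

lemma win_nonneg (j k : ℕ) : 0 ≤ ∑ l ∈ range k, (hh - N.s (j+l)) := by
  apply sum_nonneg
  intro l _
  have := N.s_le (j+l); linarith

lemma q_lo (j : ℕ) : 1 - 2 * σ ^ 2 ≤ N.q j := by
  have h1 := N.Eid j
  have h2 := xs_sum_le σ j
  have h3 := N.win_nonneg j R
  linarith

lemma s_lo (hR : 1 ≤ R) (j : ℕ) : hh - 2 * σ ^ 2 ≤ N.s j := by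
  have h := N.win_le j 1 hR
  simp at h
  linarith

lemma t_hi (h0 : 0 < σ) (j : ℕ) : N.t j ≤ 2 * σ := by
  have h1 := N.q_lo j
  have h2 := N.tq j
  have h3 := N.tnn j
  have h4 := N.q_le j
  have h5 := N.qnn j
  have h6 : N.t j ^ 2 ≤ (2 * σ) ^ 2 := by nlinarith
  exact (abs_le_of_sq_le_sq' h6 (by linarith)).2

lemma c_hi (hR : 1 ≤ R) (h0 : 0 < σ) (h1 : σ ≤ 1/100) (l : ℕ) : N.c l ≤ 1/2 + 4 * σ ^ 2 := by
  have h2 := N.s_lo hR l
  have h3 := N.cs l
  have h4 := N.s_le l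
  have h5 := hh_sq
  have h6 := hh_pos
  have h7 := N.clo l
  have h8 := N.snn l
  have h9 := hh_hi
  have h10 := hh_lo
  -- c^2 - 1/4 = hh^2 - s^2 = (hh - s)(hh + s) <= 2 σ² * 2 hh
  have a : N.c l ^ 2 - 1/4 = (hh - N.s l) * (hh + N.s l) := by nlinarith
  have b : (hh - N.s l) * (hh + N.s l) ≤ (2 * σ^2) * (2 * hh) := by
    apply mul_le_mul <;> nlinarith [sq_nonneg σ]
  have e : (N.c l - 1/2) * (N.c l + 1/2) ≤ 4 * σ ^ 2 * hh := by nlinarith
  have f : (N.c l - 1/2) * 1 ≤ (N.c l - 1/2) * (N.c l + 1/2) := by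
    apply mul_le_mul_of_nonneg_left <;> linarith
  nlinarith [sq_nonneg σ]

/-- partial sums of the cosines -/
noncomputable def C (j : ℕ) : ℝ := ∑ l ∈ range j, N.c l
/-- partial sums of the sines -/
noncomputable def S (j : ℕ) : ℝ := ∑ l ∈ range j, N.s l

lemma C_zero : N.C 0 = 0 := by simp [C]
lemma S_zero : N.S 0 = 0 := by simp [S]
lemma C_succ (j : ℕ) : N.C (j+1) = N.C j + N.c j := sum_range_succ _ _
lemma S_succ (j : ℕ) : N.S (j+1) = N.S j + N.s j := sum_range_succ _ _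

lemma S_add (j k : ℕ) : N.S (j+k) - N.S j = ∑ l ∈ range k, N.s (j+l) := by
  unfold S
  rw [sum_range_add]; ring

lemma C_add (j k : ℕ) : N.C (j+k) - N.C j = ∑ l ∈ range k, N.c (j+l) := by
  unfold C
  rw [sum_range_add]; ring

lemma C_lo (j : ℕ) : (j : ℝ) / 2 ≤ N.C j := by
  induction j with
  | zero => simp [C_zero]
  | succ n ih => rw [C_succ]; push_cast; have := N.clo n; linarith

lemma C_le_t (j : ℕ) : N.C j ≤ j / 2 + N.t j := by
  induction j with
  | zero => simp [C_zero, N.t0]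
  | succ n ih =>
    rw [C_succ, N.tS n]; push_cast
    have h1 := N.clo (n+R)
    have h2 := ux_le_one σ n
    unfold ux at h2
    linarith

lemma C_hi (h0 : 0 < σ) (j : ℕ) : N.C j ≤ j / 2 + 2 * σ := by
  have h1 := N.C_le_t j
  have h2 := N.t_hi h0 j
  linarith

lemma S_win_hi (j k : ℕ) : N.S (j+k) - N.S j ≤ k * hh := by
  have h := N.win_nonneg j k
  rw [sum_sub_distrib] at h
  simp at h
  rw [S_add]; linarith

lemma S_win_lo (j k : ℕ) (hk : k ≤ R) : k * hh - 2 * σ ^ 2 ≤ N.S (j+k) - N.S j := by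
  have h := N.win_le j k hk
  rw [sum_sub_distrib] at h
  simp at h
  rw [S_add]; linarith

/-- the discs of the net -/
noncomputable def b (k j : ℕ) : ℂ := ⟨hh + N.C j + N.C (j+k), 1/2 + N.S (j+k) - N.S j⟩

/-- the bar directions -/
noncomputable def av (l : ℕ) : ℂ := ⟨N.c l, N.s l⟩
noncomputable def bv (l : ℕ) : ℂ := ⟨-N.c l, N.s l⟩
/-- support direction of the void chain -/
noncomputable def et (j : ℕ) : ℂ := ⟨-N.t j, N.q j⟩

/-- the discs of the void chain -/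
noncomputable def r (j : ℕ) : ℂ := N.b R j + N.et j

@[simp] lemma b_re (k j : ℕ) : (N.b k j).re = hh + N.C j + N.C (j+k) := rfl
@[simp] lemma b_im (k j : ℕ) : (N.b k j).im = 1/2 + N.S (j+k) - N.S j := rfl
@[simp] lemma av_re (l : ℕ) : (N.av l).re = N.c l := rfl
@[simp] lemma av_im (l : ℕ) : (N.av l).im = N.s l := rfl
@[simp] lemma bv_re (l : ℕ) : (N.bv l).re = -N.c l := rfl
@[simp] lemma bv_im (l : ℕ) : (N.bv l).im = N.s l := rfl
@[simp] lemma et_re (j : ℕ) : (N.et j).re = -N.t j := rfl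
@[simp] lemma et_im (j : ℕ) : (N.et j).im = N.q j := rfl

lemma dt_av (l : ℕ) : dt (N.av l) (N.av l) = 1 := by
  have := N.cs l; simp only [dt, av_re, av_im]; nlinarith
lemma dt_bv (l : ℕ) : dt (N.bv l) (N.bv l) = 1 := by
  have := N.cs l; simp only [dt, bv_re, bv_im]; nlinarith
lemma dt_et (j : ℕ) : dt (N.et j) (N.et j) = 1 := by
  have := N.tq j; simp only [dt, et_re, et_im]; nlinarith

end Net

/-- the chain directions -/
noncomputable def uv (σ : ℝ) (j : ℕ) : ℂ := ⟨ux σ j, -xs σ j⟩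

@[simp] lemma uv_re (σ : ℝ) (j : ℕ) : (uv σ j).re = ux σ j := rfl
@[simp] lemma uv_im (σ : ℝ) (j : ℕ) : (uv σ j).im = -xs σ j := rfl

lemma dt_uv {σ : ℝ} (h0 : 0 < σ) (h1 : σ ≤ 1/100) (j : ℕ) : dt (uv σ j) (uv σ j) = 1 := by
  have := ux_sq h0 h1 j; simp only [dt, uv_re, uv_im]; nlinarith

namespace Net

variable {R : ℕ} {σ : ℝ} (N : Net R σ)

lemma edge_a (k j : ℕ) : N.b (k+1) j - N.b k j = N.av (j+k) := by
  apply Complex.ext
  · simp only [Complex.sub_re, b_re, av_re, ← add_assoc, C_succ]; ring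
  · simp only [Complex.sub_im, b_im, av_im, ← add_assoc, S_succ]; ring

lemma edge_b (k j : ℕ) : N.b (k+1) j - N.b k (j+1) = N.bv j := by
  apply Complex.ext
  · simp only [Complex.sub_re, b_re, bv_re]
    rw [show j + 1 + k = j + (k+1) by ring, C_succ]; ring
  · simp only [Complex.sub_im, b_im, bv_im]
    rw [show j + 1 + k = j + (k+1) by ring, S_succ]; ring

lemma edge_q (j : ℕ) : N.r j - N.b R j = N.et j := by simp [r]

lemma edge_t (j : ℕ) : N.r (j+1) - N.r j = uv σ j := by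
  apply Complex.ext
  · simp only [r, Complex.sub_re, Complex.add_re, b_re, et_re, uv_re, N.tS j, ux]
    rw [show j + 1 + R = j + R + 1 by ring, C_succ, C_succ]; ring
  · simp only [r, Complex.sub_im, Complex.add_im, b_im, et_im, uv_im, N.qS j]
    rw [show j + 1 + R = j + R + 1 by ring, S_succ, S_succ]; ring

end Net

end Pool.Agent.H30.CB
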