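import Pool.Agent.H30.CB.Net

set_option autoImplicit false

namespace Pool.Agent.H30.CB

open Finset

namespace Net

variable {R : ℕ} {σ : ℝ} (N : Net R σ)

/-- force on the upper neighbours of the disc `(k,j)` -/
noncomputable def up (F G : ℕ → ℕ → ℝ) (m : ℕ → ℝ) (k j : ℕ) : ℂ :=
  F k j • N.av (j+k) + (if j = 0 then m k • (-nw) else G k (j-1) • N.bv (j-1))

/-- force of the lower neighbours on the disc `(k+1,j)` -/
noncomputable def low (F G : ℕ → ℕ → ℝ) (k j : ℕ) : ℂ :=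
  F k j • N.av (j+k) + G k j • N.bv j

/-- weighted strain between rows `k` and `k+1` -/
noncomputable def gap (F G : ℕ → ℕ → ℝ) (m : ℕ → ℝ) (D : ℕ → ℕ → ℂ) (J k : ℕ) : ℝ :=
  ∑ j ∈ range J, F k j * dt (N.av (j+k)) (D (k+1) j - D k j)
  + ∑ j ∈ range J, G k j * dt (N.bv j) (D (k+1) j - D k (j+1))
  + m k * dt nw (D k 0)

lemma row_step (F G : ℕ → ℕ → ℝ) (m : ℕ → ℝ) (D : ℕ → ℕ → ℂ) (J k : ℕ) (hD : D k (J+1) = 0) :
    ∑ j ∈ range (J+1), dt (D (k+1) j) (N.low F G k j)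
      = ∑ j ∈ range (J+1), dt (D k j) (N.up F G m k j) + N.gap F G m D (J+1) k := by
  have e1 : ∑ j ∈ range (J+1), dt (D k j) (N.up F G m k j)
      = ∑ j ∈ range (J+1), F k j * dt (D k j) (N.av (j+k))
        + (∑ j ∈ range J, G k j * dt (D k (j+1)) (N.bv j) - m k * dt nw (D k 0)) := by
    have : ∀ j ∈ range (J+1), dt (D k j) (N.up F G m k j)
        = F k j * dt (D k j) (N.av (j+k)) +
          (if j = 0 then - (m k * dt nw (D k 0)) else G k (j-1) * dt (D k j) (N.bv (j-1))) := by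
      intro j _
      unfold up
      rw [dt_add_right, dt_smul_right]
      split_ifs with h
      · subst h
        rw [dt_smul_right, dt_neg_right, dt_comm (D k 0) nw]; ring
      · rw [dt_smul_right]
    rw [sum_congr rfl this, sum_add_distrib]
    congr 1
    rw [sum_range_succ']
    simp
    ring
  have e2 : ∑ j ∈ range (J+1), G k j * dt (N.bv j) (D (k+1) j - D k (j+1))
      = ∑ j ∈ range (J+1), G k j * dt (D (k+1) j) (N.bv j)
        - ∑ j ∈ range J, G k j * dt (D k (j+1)) (N.bv j) := by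
    have : ∀ j ∈ range (J+1), G k j * dt (N.bv j) (D (k+1) j - D k (j+1))
        = G k j * dt (D (k+1) j) (N.bv j) - G k j * dt (D k (j+1)) (N.bv j) := by
      intro j _
      rw [dt_sub_right, dt_comm (N.bv j), dt_comm (N.bv j)]; ring
    rw [sum_congr rfl this, sum_sub_distrib]
    congr 1
    rw [sum_range_succ, hD, dt_zero_left]; ring
  have e3 : ∑ j ∈ range (J+1), F k j * dt (N.av (j+k)) (D (k+1) j - D k j)
      = ∑ j ∈ range (J+1), F k j * dt (D (k+1) j) (N.av (j+k))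
        - ∑ j ∈ range (J+1), F k j * dt (D k j) (N.av (j+k)) := by
    rw [← sum_sub_distrib]
    apply sum_congr rfl
    intro j _
    rw [dt_sub_right, dt_comm (N.av (j+k)), dt_comm (N.av (j+k))]; ring
  have e4 : ∑ j ∈ range (J+1), dt (D (k+1) j) (N.low F G k j)
      = ∑ j ∈ range (J+1), F k j * dt (D (k+1) j) (N.av (j+k))
        + ∑ j ∈ range (J+1), G k j * dt (D (k+1) j) (N.bv j) := by
    rw [← sum_add_distrib]
    apply sum_congr rfl
    intro j _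
    unfold low
    rw [dt_add_right, dt_smul_right, dt_smul_right]
  unfold gap
  rw [e1, e2, e3, e4]
  ring

lemma gap_nonneg {F G : ℕ → ℕ → ℝ} {m : ℕ → ℝ} {D : ℕ → ℕ → ℂ} {J k : ℕ}
    (hF : ∀ j, 0 ≤ F k j) (hG : ∀ j, 0 ≤ G k j) (hm : 0 ≤ m k)
    (sa : ∀ j, 0 ≤ dt (N.av (j+k)) (D (k+1) j - D k j))
    (sb : ∀ j, 0 ≤ dt (N.bv j) (D (k+1) j - D k (j+1)))
    (sw : 0 ≤ dt nw (D k 0)) : 0 ≤ N.gap F G m D J k := by
  unfold gap
  have a1 : 0 ≤ ∑ j ∈ range J, F k j * dt (N.av (j+k)) (D (k+1) j - D k j) :=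
    sum_nonneg (fun j _ => mul_nonneg (hF j) (sa j))
  have a2 : 0 ≤ ∑ j ∈ range J, G k j * dt (N.bv j) (D (k+1) j - D k (j+1)) :=
    sum_nonneg (fun j _ => mul_nonneg (hG j) (sb j))
  have a3 := mul_nonneg hm sw
  linarith

lemma gap_zero {F G : ℕ → ℕ → ℝ} {m : ℕ → ℝ} {D : ℕ → ℕ → ℂ} {J k : ℕ}
    (hF : ∀ j, 0 < F k j) (hG : ∀ j, 0 < G k j) (hm : 0 ≤ m k)
    (sa : ∀ j, 0 ≤ dt (N.av (j+k)) (D (k+1) j - D k j))
    (sb : ∀ j, 0 ≤ dt (N.bv j) (D (k+1) j - D k (j+1)))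
    (sw : 0 ≤ dt nw (D k 0)) (h : N.gap F G m D J k = 0)
    (hJ : ∀ k j, J ≤ j → D k j = 0) :
    (∀ j, dt (N.av (j+k)) (D (k+1) j - D k j) = 0) ∧
    (∀ j, dt (N.bv j) (D (k+1) j - D k (j+1)) = 0) ∧ (0 < m k → dt nw (D k 0) = 0) := by
  unfold gap at h
  have b1 : ∀ j ∈ range J, 0 ≤ F k j * dt (N.av (j+k)) (D (k+1) j - D k j) :=
    (fun j _ => mul_nonneg (hF j).le (sa j))
  have b2 : ∀ j ∈ range J, 0 ≤ G k j * dt (N.bv j) (D (k+1) j - D k (j+1)) :=
    (fun j _ => mul_nonneg (hG j).le (sb j))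
  have a1 := sum_nonneg b1
  have a2 := sum_nonneg b2
  have a3 := mul_nonneg hm sw
  have c1 : ∑ j ∈ range J, F k j * dt (N.av (j+k)) (D (k+1) j - D k j) = 0 := by linarith
  have c2 : ∑ j ∈ range J, G k j * dt (N.bv j) (D (k+1) j - D k (j+1)) = 0 := by linarith
  have c3 : m k * dt nw (D k 0) = 0 := by linarith
  rw [sum_eq_zero_iff_of_nonneg b1] at c1
  rw [sum_eq_zero_iff_of_nonneg b2] at c2
  refine ⟨?_, ?_, ?_⟩
  · intro j
    rcases Nat.lt_or_ge j J with hj | hj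
    · rcases mul_eq_zero.1 (c1 j (mem_range.2 hj)) with h | h
      · exact absurd h (hF j).ne'
      · exact h
    · rw [hJ (k+1) j hj, hJ k j hj]; simp [dt]
  · intro j
    rcases Nat.lt_or_ge j J with hj | hj
    · rcases mul_eq_zero.1 (c2 j (mem_range.2 hj)) with h | h
      · exact absurd h (hG j).ne'
      · exact h
    · rw [hJ (k+1) j hj, hJ k (j+1) (by omega)]; simp [dt]
  · intro hmp
    rcases mul_eq_zero.1 c3 with h | h
    · exact absurd h hmp.ne'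
    · exact h

/-- virtual work below a fixed row -/
theorem work_below {K J : ℕ} (hK : 1 ≤ K) {F G : ℕ → ℕ → ℝ} {m V : ℕ → ℝ}
    (hF : ∀ k < K, ∀ j, 0 < F k j) (hG : ∀ k < K, ∀ j, 0 < G k j)
    (hm : ∀ k < K, 0 < m k) (hV : ∀ j, 0 < V j)
    (eq0 : ∀ j, N.up F G m 0 j = V j • Complex.I)
    (eqk : ∀ k, k + 1 < K → ∀ j, N.up F G m (k+1) j = N.low F G k j)
    {D : ℕ → ℕ → ℂ} (hJ : ∀ k j, J + 1 ≤ j → D k j = 0) (hDK : ∀ j, D K j = 0)
    (sa : ∀ k < K, ∀ j, 0 ≤ dt (N.av (j+k)) (D (k+1) j - D k j))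
    (sb : ∀ k < K, ∀ j, 0 ≤ dt (N.bv j) (D (k+1) j - D k (j+1)))
    (sw : ∀ k < K, 0 ≤ dt nw (D k 0)) (s0 : ∀ j, 0 ≤ (D 0 j).im) :
    ∀ k < K, (∀ j, dt (N.av (j+k)) (D (k+1) j - D k j) = 0) ∧
    (∀ j, dt (N.bv j) (D (k+1) j - D k (j+1)) = 0) ∧ dt nw (D k 0) = 0 := by
  have hgap : ∀ k < K, 0 ≤ N.gap F G m D (J+1) k := fun k hk =>
    N.gap_nonneg (fun j => (hF k hk j).le) (fun j => (hG k hk j).le) (hm k hk).le
      (sa k hk) (sb k hk) (sw k hk)
  set U0 := ∑ j ∈ range (J+1), V j * (D 0 j).im with hU0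
  have hU0n : 0 ≤ U0 := sum_nonneg (fun j _ => mul_nonneg (hV j).le (s0 j))
  have tel : ∀ k, k + 1 ≤ K → ∑ j ∈ range (J+1), dt (D (k+1) j) (N.low F G k j)
      = U0 + ∑ i ∈ range (k+1), N.gap F G m D (J+1) i := by
    intro k
    induction k with
    | zero =>
      intro _
      rw [N.row_step F G m D J 0 (hJ 0 (J+1) (le_refl _))]
      simp only [zero_add, sum_range_one]
      congr 1
      rw [hU0]
      apply sum_congr rfl
      intro j _
      rw [eq0 j, dt_smul_right]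
      simp [dt]
    | succ n ih =>
      intro hn
      rw [N.row_step F G m D J (n+1) (hJ (n+1) (J+1) (le_refl _))]
      rw [sum_range_succ _ (n+1), ← add_assoc, ← ih (by omega)]
      congr 1
      apply sum_congr rfl
      intro j _
      rw [eqk n (by omega) j]
  obtain ⟨K', rfl⟩ : ∃ K', K = K' + 1 := ⟨K - 1, by omega⟩
  have h1 := tel K' (le_refl _)
  have h2 : ∑ j ∈ range (J+1), dt (D (K'+1) j) (N.low F G K' j) = 0 := by
    apply sum_eq_zero
    intro j _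
    rw [hDK, dt_zero_left]
  rw [h2] at h1
  have h3 : ∀ i ∈ range (K'+1), 0 ≤ N.gap F G m D (J+1) i := fun i hi => hgap i (mem_range.1 hi)
  have h4 := sum_nonneg h3
  have h5 : ∑ i ∈ range (K'+1), N.gap F G m D (J+1) i = 0 := by linarith
  rw [sum_eq_zero_iff_of_nonneg h3] at h5
  intro k hk
  have h6 := h5 k (mem_range.2 hk)
  have h7 := N.gap_zero (fun j => hF k hk j) (fun j => hG k hk j) (hm k hk).le (sa k hk) (sb k hk)
    (sw k hk) h6 hJ
  exact ⟨h7.1, h7.2.1, h7.2.2 (hm k hk)⟩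

/-- virtual work of the void chain -/
lemma chain_step (J : ℕ) (Q T : ℕ → ℝ) (D : ℕ → ℕ → ℂ)
    (hD : D (R+1) (J+1) = 0)
    (eqr : ∀ j, Q (j+1) • N.et (j+1) = T (j+1) • uv σ (j+1) - T j • uv σ j)
    (eq0 : Q 0 * dt (D (R+1) 0) (N.et 0) = T 0 * dt (D (R+1) 0) (uv σ 0)) :
    ∑ j ∈ range (J+1), Q j * dt (N.et j) (D (R+1) j - D R j)
      + ∑ j ∈ range (J+1), T j * dt (uv σ j) (D (R+1) (j+1) - D (R+1) j)
      = - ∑ j ∈ range (J+1), dt (D R j) (Q j • N.et j) := by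
  have e1 : ∑ j ∈ range (J+1), Q j * dt (N.et j) (D (R+1) j - D R j)
      = ∑ j ∈ range (J+1), Q j * dt (D (R+1) j) (N.et j)
        - ∑ j ∈ range (J+1), dt (D R j) (Q j • N.et j) := by
    rw [← sum_sub_distrib]
    apply sum_congr rfl
    intro j _
    rw [dt_sub_right, dt_smul_right, dt_comm (N.et j), dt_comm (N.et j)]; ring
  have e2 : ∑ j ∈ range (J+1), T j * dt (uv σ j) (D (R+1) (j+1) - D (R+1) j)
      = ∑ j ∈ range J, T j * dt (D (R+1) (j+1)) (uv σ j)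
        - ∑ j ∈ range (J+1), T j * dt (D (R+1) j) (uv σ j) := by
    have : ∀ j ∈ range (J+1), T j * dt (uv σ j) (D (R+1) (j+1) - D (R+1) j)
        = T j * dt (D (R+1) (j+1)) (uv σ j) - T j * dt (D (R+1) j) (uv σ j) := by
      intro j _
      rw [dt_sub_right, dt_comm (uv σ j), dt_comm (uv σ j)]; ring
    rw [sum_congr rfl this, sum_sub_distrib]
    congr 1
    rw [sum_range_succ, hD, dt_zero_left]; ring
  have e3 : ∑ j ∈ range (J+1), Q j * dt (D (R+1) j) (N.et j)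
      = ∑ j ∈ range (J+1), T j * dt (D (R+1) j) (uv σ j)
        - ∑ j ∈ range J, T j * dt (D (R+1) (j+1)) (uv σ j) := by
    rw [sum_range_succ', sum_range_succ' (fun j => T j * dt (D (R+1) j) (uv σ j)), eq0]
    have : ∀ j ∈ range J, Q (j+1) * dt (D (R+1) (j+1)) (N.et (j+1))
        = T (j+1) * dt (D (R+1) (j+1)) (uv σ (j+1)) - T j * dt (D (R+1) (j+1)) (uv σ j) := by
      intro j _
      rw [← dt_smul_right, eqr j, dt_sub_right, dt_smul_right, dt_smul_right]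
    rw [sum_congr rfl this, sum_sub_distrib]
    ring
  rw [e1, e2, e3]
  ring

/-- virtual work above a fixed row -/
theorem work_above {K J : ℕ} (hK : 1 ≤ K) (hKR : K ≤ R) {F G : ℕ → ℕ → ℝ} {m Q T : ℕ → ℝ}
    (hF : ∀ k < R, ∀ j, 0 < F k j) (hG : ∀ k < R, ∀ j, 0 < G k j)
    (hm : ∀ k < R, 0 ≤ m k) (hQ : ∀ j, 0 < Q j) (hT : ∀ j, 0 < T j)
    (eqk : ∀ k, k + 1 < R → ∀ j, N.up F G m (k+1) j = N.low F G k j)
    (eqR : ∀ k, k + 1 = R → ∀ j, Q j • N.et j = N.low F G k j)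
    (eqr : ∀ j, Q (j+1) • N.et (j+1) = T (j+1) • uv σ (j+1) - T j • uv σ j)
    {D : ℕ → ℕ → ℂ}
    (eq0 : Q 0 * dt (D (R+1) 0) (N.et 0) = T 0 * dt (D (R+1) 0) (uv σ 0))
    (hJ : ∀ k j, J + 1 ≤ j → D k j = 0) (hDK : ∀ j, D K j = 0)
    (sa : ∀ k, K ≤ k → k < R → ∀ j, 0 ≤ dt (N.av (j+k)) (D (k+1) j - D k j))
    (sb : ∀ k, K ≤ k → k < R → ∀ j, 0 ≤ dt (N.bv j) (D (k+1) j - D k (j+1)))
    (sw : ∀ k, K ≤ k → k < R → 0 ≤ dt nw (D k 0))
    (sq : ∀ j, 0 ≤ dt (N.et j) (D (R+1) j - D R j))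
    (st : ∀ j, 0 ≤ dt (uv σ j) (D (R+1) (j+1) - D (R+1) j)) :
    (∀ k, K ≤ k → k < R → (∀ j, dt (N.av (j+k)) (D (k+1) j - D k j) = 0) ∧
      (∀ j, dt (N.bv j) (D (k+1) j - D k (j+1)) = 0)) ∧
    (∀ j, dt (N.et j) (D (R+1) j - D R j) = 0) ∧
    (∀ j, dt (uv σ j) (D (R+1) (j+1) - D (R+1) j) = 0) := by
  have hgap : ∀ k, K ≤ k → k < R → 0 ≤ N.gap F G m D (J+1) k := fun k hk hk' =>
    N.gap_nonneg (fun j => (hF k hk' j).le) (fun j => (hG k hk' j).le) (hm k hk')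
      (sa k hk hk') (sb k hk hk') (sw k hk hk')
  have tel : ∀ n, K + n + 1 ≤ R → ∑ j ∈ range (J+1), dt (D (K+n+1) j) (N.low F G (K+n) j)
      = ∑ i ∈ range (n+1), N.gap F G m D (J+1) (K+i) := by
    intro n
    induction n with
    | zero =>
      intro _
      rw [N.row_step F G m D J (K+0) (hJ _ (J+1) (le_refl _))]
      simp only [zero_add, sum_range_one, add_zero]
      rw [add_eq_right]
      apply sum_eq_zero
      intro j _
      rw [hDK, dt_zero_left]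
    | succ n ih =>
      intro hn
      rw [N.row_step F G m D J (K+(n+1)) (hJ _ (J+1) (le_refl _))]
      rw [sum_range_succ _ (n+1), ← ih (by omega)]
      congr 1
      apply sum_congr rfl
      intro j _
      rw [show K + (n+1) = K + n + 1 by ring, eqk (K+n) (by omega) j]
  -- total work
  have tot : ∑ j ∈ range (J+1), dt (D R j) (Q j • N.et j)
      = ∑ i ∈ range (R-K), N.gap F G m D (J+1) (K+i) := by
    rcases Nat.lt_or_ge K R with h | h
    · obtain ⟨n, rfl⟩ := Nat.exists_eq_add_of_lt h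
      rw [show K + n + 1 - K = n + 1 by omega, ← tel n (le_refl _)]
      apply sum_congr rfl
      intro j _
      rw [eqR (K+n) rfl j]
    · obtain rfl : K = R := by omega
      simp only [Nat.sub_self, range_zero, sum_empty]
      apply sum_eq_zero
      intro j _
      rw [hDK, dt_zero_left]
  have h3 : ∀ i ∈ range (R-K), 0 ≤ N.gap F G m D (J+1) (K+i) := fun i hi =>
    hgap (K+i) (by omega) (by have := mem_range.1 hi; omega)
  have h4 := sum_nonneg h3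
  have cs := N.chain_step J Q T D (hJ _ _ (le_refl _)) eqr eq0
  have b1 : ∀ j ∈ range (J+1), 0 ≤ Q j * dt (N.et j) (D (R+1) j - D R j) :=
    fun j _ => mul_nonneg (hQ j).le (sq j)
  have b2 : ∀ j ∈ range (J+1), 0 ≤ T j * dt (uv σ j) (D (R+1) (j+1) - D (R+1) j) :=
    fun j _ => mul_nonneg (hT j).le (st j)
  have c1 := sum_nonneg b1
  have c2 := sum_nonneg b2
  rw [tot] at cs
  have z1 : ∑ i ∈ range (R-K), N.gap F G m D (J+1) (K+i) = 0 := by linarith
  have z2 : ∑ j ∈ range (J+1), Q j * dt (N.et j) (D (R+1) j - D R j) = 0 := by linarith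
  have z3 : ∑ j ∈ range (J+1), T j * dt (uv σ j) (D (R+1) (j+1) - D (R+1) j) = 0 := by linarith
  rw [sum_eq_zero_iff_of_nonneg h3] at z1
  rw [sum_eq_zero_iff_of_nonneg b1] at z2
  rw [sum_eq_zero_iff_of_nonneg b2] at z3
  refine ⟨?_, ?_, ?_⟩
  · intro k hk hk'
    have h6 := z1 (k-K) (mem_range.2 (by omega))
    rw [show K + (k-K) = k by omega] at h6
    have h7 := N.gap_zero (fun j => hF k hk' j) (fun j => hG k hk' j) (hm k hk') (sa k hk hk')
      (sb k hk hk') (sw k hk hk') h6 hJ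
    exact ⟨h7.1, h7.2.1⟩
  · intro j
    rcases Nat.lt_or_ge j (J+1) with hj | hj
    · rcases mul_eq_zero.1 (z2 j (mem_range.2 hj)) with h | h
      · exact absurd h (hQ j).ne'
      · exact h
    · rw [hJ _ j hj, hJ _ j hj]; simp [dt]
  · intro j
    rcases Nat.lt_or_ge j (J+1) with hj | hj
    · rcases mul_eq_zero.1 (z3 j (mem_range.2 hj)) with h | h
      · exact absurd h (hT j).ne'
      · exact h
    · rw [hJ _ j hj, hJ _ (j+1) (by omega)]; simp [dt]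

end Net

end Pool.Agent.H30.CB
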