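import Pool.Agent.H30.CB.Work

set_option autoImplicit false

namespace Pool.Agent.H30.CB

open Finset

/-- cross product -/
noncomputable def cr (u v : ℂ) : ℝ := u.re * v.im - u.im * v.re

lemma solve2 (A B L : ℂ) (h : cr A B ≠ 0) : (cr L B / cr A B) • A + (cr A L / cr A B) • B = L := by
  unfold cr at *
  apply Complex.ext
  · simp only [Complex.add_re, Complex.smul_re, smul_eq_mul]
    rw [div_mul_eq_mul_div, div_mul_eq_mul_div, ← add_div, div_eq_iff h]
    ring
  · simp only [Complex.add_im, Complex.smul_im, smul_eq_mul]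
    rw [div_mul_eq_mul_div, div_mul_eq_mul_div, ← add_div, div_eq_iff h]
    ring

lemma cr_add_left (u v w : ℂ) : cr (u + v) w = cr u w + cr v w := by
  simp only [cr, Complex.add_re, Complex.add_im]; ring
lemma cr_add_right (u v w : ℂ) : cr u (v + w) = cr u v + cr u w := by
  simp only [cr, Complex.add_re, Complex.add_im]; ring
lemma cr_smul_left (a : ℝ) (u v : ℂ) : cr (a • u) v = a * cr u v := by
  simp only [cr, Complex.smul_re, Complex.smul_im, smul_eq_mul]; ring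
lemma cr_smul_right (a : ℝ) (u v : ℂ) : cr u (a • v) = a * cr u v := by
  simp only [cr, Complex.smul_re, Complex.smul_im, smul_eq_mul]; ring

/-- the parameters are admissible -/
structure Good (R : ℕ) (σ : ℝ) : Prop where
  hR : 1 ≤ R
  h0 : 0 < σ
  h1 : σ ≤ 1/100
  h2 : σ ^ 2 * (2000 * R * 2 ^ R) ≤ 1

namespace Good
variable {R : ℕ} {σ : ℝ} (H : Good R σ)
include H

lemma a_small : σ ^ 2 ≤ 1/10000 := by nlinarith [H.h0, H.h1]

lemma aR : 2000 * (σ ^ 2 * R) ≤ 1 := by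
  have h := H.h2
  have h3 : (1:ℝ) ≤ 2 ^ R := one_le_pow₀ (by norm_num)
  have h4 : 0 ≤ σ ^ 2 * R := by positivity
  nlinarith

lemma aR2 : 2000 * (σ ^ 2 * 2 ^ R * R) ≤ 1 := by
  have h := H.h2
  nlinarith

end Good

namespace Net

variable {R : ℕ} {σ : ℝ} (N : Net R σ)

lemma cr_av_bv (p l : ℕ) : cr (N.av p) (N.bv l) = N.c p * N.s l + N.s p * N.c l := by
  simp only [cr, av_re, av_im, bv_re, bv_im]; ring

lemma cr_lo (H : Good R σ) (p l : ℕ) : hh - 2 * σ ^ 2 ≤ cr (N.av p) (N.bv l) := by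
  rw [cr_av_bv]
  have h1 := N.clo p
  have h2 := N.clo l
  have h3 := N.s_lo H.hR p
  have h4 := N.s_lo H.hR l
  have h5 := H.a_small
  have h6 := hh_lo
  have a1 : (1/2) * (hh - 2*σ^2) ≤ N.c p * N.s l := by
    apply mul_le_mul h1 h4 _ (by linarith)
    linarith
  have a2 : (hh - 2*σ^2) * (1/2) ≤ N.s p * N.c l := by
    apply mul_le_mul h3 h2 (by norm_num)
    exact N.snn p
  linarith

lemma cr_hi (H : Good R σ) (p l : ℕ) : cr (N.av p) (N.bv l) ≤ hh + 7 * σ ^ 2 := by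
  rw [cr_av_bv]
  have h1 := N.c_hi H.hR H.h0 H.h1 p
  have h2 := N.c_hi H.hR H.h0 H.h1 l
  have h3 := N.s_le p
  have h4 := N.s_le l
  have h5 := H.a_small
  have h6 := hh_hi
  have h7 := hh_pos
  have h8 : 0 ≤ σ ^ 2 := sq_nonneg σ
  have a1 : N.c p * N.s l ≤ (1/2 + 4 * σ^2) * hh := by
    apply mul_le_mul h1 h4 (N.snn l) (by positivity)
  have a2 : N.s p * N.c l ≤ hh * (1/2 + 4 * σ^2) := by
    apply mul_le_mul h3 h2 _ hh_pos.le
    have := N.clo l; linarith
  nlinarith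

lemma cr_ge (H : Good R σ) (p l : ℕ) : 8/10 ≤ cr (N.av p) (N.bv l) := by
  have h1 := N.cr_lo H p l
  have h5 := H.a_small
  have h6 := hh_lo
  linarith

lemma cs_diff (H : Good R σ) (p l : ℕ) : |N.c p * N.s l - N.s p * N.c l| ≤ 5 * σ ^ 2 := by
  have h1 := N.c_hi H.hR H.h0 H.h1 p
  have h2 := N.c_hi H.hR H.h0 H.h1 l
  have h1' := N.clo p
  have h2' := N.clo l
  have h3 := N.s_le p
  have h4 := N.s_le l
  have h3' := N.s_lo H.hR p
  have h4' := N.s_lo H.hR l
  have h6 := hh_hi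
  have h7 := hh_pos
  have h8 : 0 ≤ σ ^ 2 := sq_nonneg σ
  have e : N.c p * N.s l - N.s p * N.c l = (N.c p - N.c l) * N.s l + N.c l * (N.s l - N.s p) := by
    ring
  have b1 : |(N.c p - N.c l) * N.s l| ≤ (4 * σ^2) * hh := by
    rw [abs_mul]
    apply mul_le_mul _ _ (abs_nonneg _) (by positivity)
    · rw [abs_le]; constructor <;> linarith
    · rw [abs_of_nonneg (N.snn l)]; exact h4
  have b2 : |N.c l * (N.s l - N.s p)| ≤ (1/2 + 4*σ^2) * (2 * σ^2) := by
    rw [abs_mul]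
    apply mul_le_mul _ _ (abs_nonneg _) (by positivity)
    · rw [abs_of_nonneg (by linarith)]; exact h2
    · rw [abs_le]; constructor <;> linarith
  rw [e]
  have h5 := H.a_small
  calc |(N.c p - N.c l) * N.s l + N.c l * (N.s l - N.s p)|
      ≤ |(N.c p - N.c l) * N.s l| + |N.c l * (N.s l - N.s p)| := abs_add_le _ _
    _ ≤ (4 * σ^2) * hh + (1/2 + 4*σ^2) * (2 * σ^2) := add_le_add b1 b2
    _ ≤ 5 * σ^2 := by nlinarith

lemma cr_aa (H : Good R σ) (p l : ℕ) : |cr (N.av p) (N.av l)| ≤ 5 * σ ^ 2 := by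
  have := N.cs_diff H p l
  simpa [cr] using this

lemma cr_bb (H : Good R σ) (p l : ℕ) : |cr (N.bv p) (N.bv l)| ≤ 5 * σ ^ 2 := by
  have h := N.cs_diff H p l
  rw [show cr (N.bv p) (N.bv l) = -(N.c p * N.s l - N.s p * N.c l) by
    simp only [cr, bv_re, bv_im]; ring, abs_neg]
  exact h

lemma cr_ba (p l : ℕ) : cr (N.bv p) (N.bv p) = 0 := by simp [cr]; ring

lemma cr_bb0 {p l : ℕ} (hp : p < R) (hl : l < R) : cr (N.bv p) (N.bv l) = 0 := by
  simp only [cr, bv_re, bv_im, N.c0 p hp, N.c0 l hl, N.s0 p hp, N.s0 l hl]; ring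

lemma cr_dd (H : Good R σ) (p l p' l' : ℕ) :
    |cr (N.av p) (N.bv l) - cr (N.av p') (N.bv l')| ≤ 9 * σ ^ 2 := by
  have h1 := N.cr_lo H p l
  have h2 := N.cr_hi H p l
  have h3 := N.cr_lo H p' l'
  have h4 := N.cr_hi H p' l'
  rw [abs_le]; constructor <;> linarith

/-- relative change of the weights -/
lemma ratio_bound {f g u v d a F G : ℝ} (hd : 8/10 ≤ d) (hf : 0 ≤ f) (hF : f ≤ F) (hg : 0 ≤ g)
    (hG : g ≤ G) (hu : |u - d| ≤ 9 * a) (hv : |v| ≤ 5 * a) (ha : 0 ≤ a) :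
    |(f * u + g * v) / d - f| ≤ 12 * a * F + 7 * a * G := by
  have hd0 : 0 < d := by linarith
  have e : (f * u + g * v) / d - f = (f * (u - d) + g * v) / d := by
    field_simp; ring
  rw [e, abs_div, abs_of_pos hd0, div_le_iff₀ hd0]
  have a1 : |f * (u - d) + g * v| ≤ f * (9*a) + g * (5*a) := by
    calc |f * (u - d) + g * v| ≤ |f * (u-d)| + |g * v| := abs_add_le _ _
      _ = f * |u - d| + g * |v| := by rw [abs_mul, abs_mul, abs_of_nonneg hf, abs_of_nonneg hg]
      _ ≤ _ := add_le_add (mul_le_mul_of_nonneg_left hu hf) (mul_le_mul_of_nonneg_left hv hg)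
  have a2 : f * (9*a) ≤ F * (9*a) := mul_le_mul_of_nonneg_right hF (by positivity)
  have a3 : g * (5*a) ≤ G * (5*a) := mul_le_mul_of_nonneg_right hG (by positivity)
  have hF0 : 0 ≤ F := le_trans hf hF
  have hG0 : 0 ≤ G := le_trans hg hG
  have a4 : (12 * a * F + 7 * a * G) * (8/10) ≤ (12 * a * F + 7 * a * G) * d := by
    apply mul_le_mul_of_nonneg_left hd (by positivity)
  have a5 : 0 ≤ a * F := by positivity
  have a6 : 0 ≤ a * G := by positivity
  nlinarith

/-! ### weights below -/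

/-- weights of the lower part -/
noncomputable def FGB : ℕ → ℕ → ℝ × ℝ
  | 0 => fun j => (if j = 0 then hh else 1 / (2 * N.c j), 1 / (2 * N.c j))
  | (k+1) => fun j =>
    (if j = 0 then (FGB k 0).1 + (FGB k 0).2 / 2 else
      cr ((FGB k j).1 • N.av (j+k) + (FGB k j).2 • N.bv j) (N.bv (j-1)) /
        cr (N.av (j+(k+1))) (N.bv (j-1)),
     cr (N.av (j+1+(k+1))) ((FGB k (j+1)).1 • N.av (j+1+k) + (FGB k (j+1)).2 • N.bv (j+1)) /
        cr (N.av (j+1+(k+1))) (N.bv j))

noncomputable def FB (k j : ℕ) : ℝ := (N.FGB k j).1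
noncomputable def GB (k j : ℕ) : ℝ := (N.FGB k j).2
noncomputable def mB' : ℕ → ℝ
  | 0 => 1/2
  | (k+1) => hh * N.GB k 0
noncomputable def VB : ℕ → ℝ
  | 0 => 1
  | (j+1) => (N.s (j+1) / N.c (j+1) + N.s j / N.c j) / 2

lemma FB_zero_succ (j : ℕ) : N.FB 0 (j+1) = 1 / (2 * N.c (j+1)) := by simp [FB, FGB]
lemma FB_zero_zero : N.FB 0 0 = hh := by simp [FB, FGB]
lemma GB_zero (j : ℕ) : N.GB 0 j = 1 / (2 * N.c j) := by simp [GB, FGB]
lemma FB_succ_zero (k : ℕ) : N.FB (k+1) 0 = N.FB k 0 + N.GB k 0 / 2 := by simp [FB, GB, FGB]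
lemma FB_succ_succ (k j : ℕ) : N.FB (k+1) (j+1) = cr (N.low N.FB N.GB k (j+1)) (N.bv j) /
    cr (N.av (j+1+(k+1))) (N.bv j) := by
  simp [FB, GB, FGB, low]
lemma GB_succ (k j : ℕ) : N.GB (k+1) j = cr (N.av (j+1+(k+1))) (N.low N.FB N.GB k (j+1)) /
    cr (N.av (j+1+(k+1))) (N.bv j) := by
  simp [FB, GB, FGB, low]

lemma eqB0 (H : Good R σ) (j : ℕ) : N.up N.FB N.GB N.mB' 0 j = N.VB j • Complex.I := by
  rcases j with _ | j
  · have h1 := N.c0 0 H.hR
    have h2 := N.s0 0 H.hR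
    have h3 := hh_sq
    apply Complex.ext
    · simp [up, FB_zero_zero, mB', VB, h1]; ring
    · simp [up, FB_zero_zero, mB', VB, h2]; linear_combination h3
  · have h1 := N.clo j
    have h2 := N.clo (j+1)
    have h1' : N.c j ≠ 0 := by linarith
    have h2' : N.c (j+1) ≠ 0 := by linarith
    apply Complex.ext
    · simp [up, FB_zero_succ, GB_zero, VB]
      field_simp
      ring
    · simp [up, FB_zero_succ, GB_zero, VB]
      field_simp

lemma eqBk (H : Good R σ) (k : ℕ) (hk : k + 1 < R) (j : ℕ) :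
    N.up N.FB N.GB N.mB' (k+1) j = N.low N.FB N.GB k j := by
  rcases j with _ | j
  · have h1 := N.c0 (k+1) hk
    have h2 := N.s0 (k+1) hk
    have h1' := N.c0 k (by omega)
    have h2' := N.s0 k (by omega)
    have h1'' := N.c0 0 H.hR
    have h2'' := N.s0 0 H.hR
    have h3 := hh_sq
    apply Complex.ext
    · simp [up, low, FB_succ_zero, mB', h1, h1', h1'']; linear_combination (-N.GB k 0) * h3
    · simp [up, low, FB_succ_zero, mB', h2, h2', h2'']; ring
  · have h := N.cr_ge H (j+1+(k+1)) j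
    have hne : cr (N.av (j+1+(k+1))) (N.bv j) ≠ 0 := by linarith
    have h2 := solve2 (N.av (j+1+(k+1))) (N.bv j) (N.low N.FB N.GB k (j+1)) hne
    rw [up, if_neg (Nat.succ_ne_zero j), Nat.add_sub_cancel, FB_succ_succ, GB_succ]
    exact h2

lemma boundB (H : Good R σ) (k : ℕ) (hk : k < R) :
    (∀ j, |N.FB k (j+1) - 1| ≤ (k+1) * (40 * σ^2)) ∧ (∀ j, |N.GB k j - 1| ≤ (k+1) * (40 * σ^2)) := by
  have ha : 0 ≤ σ^2 := sq_nonneg σ
  have hsm := H.a_small
  induction k with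
  | zero =>
    have key : ∀ j, |1 / (2 * N.c j) - 1| ≤ ((0:ℕ):ℝ) * (40 * σ^2) + 1 * (40 * σ ^ 2) := by
      intro j
      have h1 := N.c_hi H.hR H.h0 H.h1 j
      have h2 := N.clo j
      have e : 1 / (2 * N.c j) - 1 = - ((2 * N.c j - 1) / (2 * N.c j)) := by
        have : N.c j ≠ 0 := by linarith
        field_simp; ring
      rw [e, abs_neg, abs_of_nonneg (div_nonneg (by linarith) (by linarith)),
        div_le_iff₀ (by linarith)]
      push_cast
      nlinarith
    constructor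
    · intro j
      rw [FB_zero_succ]
      have := key (j+1); push_cast at this ⊢; linarith
    · intro j
      rw [GB_zero]
      have := key j; push_cast at this ⊢; linarith
  | succ k ih =>
    obtain ⟨ihF, ihG⟩ := ih (by omega)
    have hkR : ((k:ℝ)+1) * (40 * σ^2) ≤ 1/4 := by
      have h1 := H.aR
      have h2 : ((k:ℝ)+1) ≤ R := by exact_mod_cast (by omega : k+1 ≤ R)
      have h3 : ((k:ℝ)+1) * (40 * σ^2) ≤ R * (40 * σ^2) :=
        mul_le_mul_of_nonneg_right h2 (by positivity)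
      nlinarith
    have Fb : ∀ j, 0 ≤ N.FB k (j+1) ∧ N.FB k (j+1) ≤ 5/4 := fun j => by
      have := abs_le.1 (ihF j); constructor <;> linarith
    have Gb : ∀ j, 0 ≤ N.GB k j ∧ N.GB k j ≤ 5/4 := fun j => by
      have := abs_le.1 (ihG j); constructor <;> linarith
    constructor
    · intro j
      have e : N.FB (k+1) (j+1) = (N.FB k (j+1) * cr (N.av (j+1+k)) (N.bv j)
          + N.GB k (j+1) * cr (N.bv (j+1)) (N.bv j)) / cr (N.av (j+1+(k+1))) (N.bv j) := by
        rw [FB_succ_succ, low, cr_add_left, cr_smul_left, cr_smul_left]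
      have h1 := ratio_bound (N.cr_ge H (j+1+(k+1)) j) (Fb j).1 (Fb j).2 (Gb (j+1)).1 (Gb (j+1)).2
        (N.cr_dd H (j+1+k) j (j+1+(k+1)) j) (N.cr_bb H (j+1) j) ha
      rw [← e] at h1
      have h2 := abs_le.1 h1
      have h3 := abs_le.1 (ihF j)
      rw [abs_le]
      push_cast
      constructor <;> nlinarith
    · intro j
      have e : N.GB (k+1) j = (N.GB k (j+1) * cr (N.av (j+1+(k+1))) (N.bv (j+1))
          + N.FB k (j+1) * cr (N.av (j+1+(k+1))) (N.av (j+1+k))) / cr (N.av (j+1+(k+1))) (N.bv j)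
          := by
        rw [GB_succ, low, cr_add_right, cr_smul_right, cr_smul_right]; ring
      have h1 := ratio_bound (N.cr_ge H (j+1+(k+1)) j) (Gb (j+1)).1 (Gb (j+1)).2 (Fb j).1 (Fb j).2
        (N.cr_dd H (j+1+(k+1)) (j+1) (j+1+(k+1)) j) (N.cr_aa H (j+1+(k+1)) (j+1+k)) ha
      rw [← e] at h1
      have h2 := abs_le.1 h1
      have h3 := abs_le.1 (ihG (j+1))
      rw [abs_le]
      push_cast
      constructor <;> nlinarith

lemma small_k (H : Good R σ) (k : ℕ) (hk : k < R) : ((k:ℝ)+1) * (40 * σ^2) ≤ 1/4 := by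
  have h1 := H.aR
  have h2 : ((k:ℝ)+1) ≤ R := by exact_mod_cast (by omega : k+1 ≤ R)
  have ha : 0 ≤ σ^2 := sq_nonneg σ
  have h3 : ((k:ℝ)+1) * (40 * σ^2) ≤ R * (40 * σ^2) :=
    mul_le_mul_of_nonneg_right h2 (by positivity)
  nlinarith

lemma GB_pos (H : Good R σ) (k : ℕ) (hk : k < R) (j : ℕ) : 0 < N.GB k j := by
  have h1 := abs_le.1 ((N.boundB H k hk).2 j)
  have h2 := small_k H k hk
  linarith

lemma FB_pos (H : Good R σ) (k : ℕ) (hk : k < R) (j : ℕ) : 0 < N.FB k j := by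
  rcases j with _ | j
  · induction k with
    | zero => rw [FB_zero_zero]; exact hh_pos
    | succ k ih =>
      rw [FB_succ_zero]
      have h1 := ih (by omega)
      have h2 := N.GB_pos H k (by omega) 0
      linarith
  · have h1 := abs_le.1 ((N.boundB H k hk).1 j)
    have h2 := small_k H k hk
    linarith

lemma mB'_pos (H : Good R σ) (k : ℕ) (hk : k < R) : 0 < N.mB' k := by
  rcases k with _ | k
  · simp [mB']
  · exact mul_pos hh_pos (N.GB_pos H k (by omega) 0)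

lemma VB_pos (H : Good R σ) (j : ℕ) : 0 < N.VB j := by
  rcases j with _ | j
  · simp [VB]
  · simp only [VB]
    have h1 := N.clo j
    have h2 := N.clo (j+1)
    have h3 := N.s_lo H.hR j
    have h4 := N.s_lo H.hR (j+1)
    have h5 := hh_lo
    have h6 := H.a_small
    have : 0 < N.s j / N.c j := div_pos (by linarith) (by linarith)
    have : 0 < N.s (j+1) / N.c (j+1) := div_pos (by linarith) (by linarith)
    linarith

end Net

end Pool.Agent.H30.CB
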