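import Pool.Agent.H30.CB.Wt

set_option autoImplicit false

namespace Pool.Agent.H30.CB

open Finset

lemma cr_uu {σ : ℝ} (j : ℕ) : cr (uv σ j) (uv σ (j+1))
    = xs σ (j+1) * (2 * ux σ (j+1) - ux σ j) := by
  have h := xs_succ σ j
  simp only [cr, uv_re, uv_im]
  rw [show xs σ j = 2 * xs σ (j+1) by rw [h]; ring]
  ring

lemma ux_mono {σ : ℝ} (h0 : 0 < σ) (h1 : σ ≤ 1/100) (j : ℕ) : ux σ j ≤ ux σ (j+1) := by
  unfold ux
  apply Real.sqrt_le_sqrt
  have h := xs_succ σ j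
  have h2 := xs_nonneg σ j
  rw [h]
  nlinarith [mul_nonneg h2 h2]

namespace Net

variable {R : ℕ} {σ : ℝ} (N : Net R σ)

lemma cr_ue (j l : ℕ) : cr (uv σ j) (N.et l) = ux σ j * N.q l - xs σ j * N.t l := by
  simp only [cr, uv_re, uv_im, et_re, et_im]; ring

lemma cr_ue_lo (H : Good R σ) (j l : ℕ) : 99/100 ≤ cr (uv σ j) (N.et l) := by
  rw [cr_ue]
  have h1 := ux_lo' H.h0 H.h1 j
  have h2 := xs_small H.h0 H.h1 j
  have h3 := xs_nonneg σ j
  have h4 := N.q_lo l
  have h5 := H.a_small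
  have h6 := N.t_hi H.h0 l
  have h7 := N.tnn l
  have h8 := H.h1
  have h9 := N.q_le l
  have a1 : (1 - 1/10000) * (1 - 2/10000) ≤ ux σ j * N.q l := by
    apply mul_le_mul (by linarith) (by linarith) (by norm_num) (ux_nonneg σ j)
  have a2 : xs σ j * N.t l ≤ (1/10000) * (2/100) := by
    apply mul_le_mul h2 (by linarith) h7 (by norm_num)
  linarith

lemma cr_ue_hi (j l : ℕ) : cr (uv σ j) (N.et l) ≤ 1 := by
  rw [cr_ue]
  have h1 := ux_le_one σ j
  have h3 := xs_nonneg σ j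
  have h7 := N.tnn l
  have h9 := N.q_le l
  have a1 : ux σ j * N.q l ≤ 1 * 1 := mul_le_mul h1 h9 (N.qnn l) (by norm_num)
  have a2 := mul_nonneg h3 h7
  linarith

/-- the forces in the void chain -/
noncomputable def T : ℕ → ℝ
  | 0 => 1
  | (j+1) => T j * cr (uv σ j) (N.et (j+1)) / cr (uv σ (j+1)) (N.et (j+1))

/-- the support forces of the void chain -/
noncomputable def Q : ℕ → ℝ
  | 0 => (ux σ 0 / 2 - hh * xs σ 0) / hh
  | (j+1) => N.T j * cr (uv σ j) (uv σ (j+1)) / cr (uv σ (j+1)) (N.et (j+1))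

lemma T_pos (H : Good R σ) (j : ℕ) : 0 < N.T j := by
  induction j with
  | zero => simp [T]
  | succ j ih =>
    simp only [T]
    have h1 := N.cr_ue_lo H j (j+1)
    have h2 := N.cr_ue_lo H (j+1) (j+1)
    apply div_pos (mul_pos ih (by linarith)) (by linarith)

lemma T_le (H : Good R σ) (j : ℕ) : N.T j ≤ 1 := by
  induction j with
  | zero => simp [T]
  | succ j ih =>
    simp only [T]
    have h1 := N.cr_ue_lo H j (j+1)
    have h2 := N.cr_ue_lo H (j+1) (j+1)
    have h3 := N.T_pos H j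
    rw [div_le_one (by linarith)]
    have h4 : cr (uv σ j) (N.et (j+1)) ≤ cr (uv σ (j+1)) (N.et (j+1)) := by
      rw [cr_ue, cr_ue]
      have a1 := ux_mono H.h0 H.h1 j
      have a2 := xs_succ σ j
      have a3 := xs_nonneg σ j
      have a4 := N.qnn (j+1)
      have a5 := N.tnn (j+1)
      have b1 : ux σ j * N.q (j+1) ≤ ux σ (j+1) * N.q (j+1) := mul_le_mul_of_nonneg_right a1 a4
      have b2 : xs σ (j+1) * N.t (j+1) ≤ xs σ j * N.t (j+1) := by
        apply mul_le_mul_of_nonneg_right _ a5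
        rw [a2]; linarith
      linarith
    have h5 : N.T j * cr (uv σ j) (N.et (j+1)) ≤ 1 * cr (uv σ (j+1)) (N.et (j+1)) :=
      mul_le_mul ih h4 (by linarith) (by norm_num)
    linarith

lemma T_lo (H : Good R σ) (j : ℕ) : 1 - ∑ l ∈ range j, xs σ l ≤ N.T j := by
  induction j with
  | zero => simp [T]
  | succ j ih =>
    rw [sum_range_succ]
    have h1 := N.cr_ue_lo H j (j+1)
    have h2 := N.cr_ue_lo H (j+1) (j+1)
    have h2' := N.cr_ue_hi (σ := σ) (j+1) (j+1)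
    have h3 := N.T_pos H j
    have h3' := N.T_le H j
    have h4 : cr (uv σ (j+1)) (N.et (j+1)) - cr (uv σ j) (N.et (j+1))
        ≤ xs σ j * cr (uv σ (j+1)) (N.et (j+1)) := by
      have a1 := ux_lo H.h0 H.h1 j
      have a1' := ux_le_one σ (j+1)
      have a2 := xs_succ σ j
      have a3 := xs_nonneg σ j
      have a3' := xs_small H.h0 H.h1 j
      have a4 := N.qnn (j+1)
      have a4' := N.q_le (j+1)
      have a5 := N.tnn (j+1)
      have a6 := N.t_hi H.h0 (j+1)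
      have a7 := H.h1
      have b0 : xs σ j * (99/100) ≤ xs σ j * cr (uv σ (j+1)) (N.et (j+1)) :=
        mul_le_mul_of_nonneg_left h2 a3
      have b1 : (ux σ (j+1) - ux σ j) * N.q (j+1) ≤ (xs σ j * (1/10000)) * 1 := by
        apply mul_le_mul _ a4' a4 (by positivity)
        nlinarith
      have b2 : (xs σ j - xs σ (j+1)) * N.t (j+1) ≤ xs σ j * (2/100) := by
        rw [a2]
        apply mul_le_mul (by linarith) (by linarith) a5 a3
      rw [cr_ue, cr_ue] at *
      linarith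
    have h5 : N.T j * (1 - xs σ j) ≤ N.T (j+1) := by
      simp only [T]
      rw [le_div_iff₀ (by linarith), mul_assoc]
      apply mul_le_mul_of_nonneg_left _ h3.le
      linarith
    have h6 : N.T j * xs σ j ≤ 1 * xs σ j := mul_le_mul_of_nonneg_right h3' (xs_nonneg σ j)
    linarith

lemma T_half (H : Good R σ) (j : ℕ) : 1/2 ≤ N.T j := by
  have h1 := N.T_lo H j
  have h2 := xs_sum_le σ j
  have h3 := H.a_small
  linarith

lemma Q_zero_lo (H : Good R σ) : 1/2 ≤ N.Q 0 := by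
  simp only [Q]
  have h1 := ux_lo' H.h0 H.h1 0
  have h2 := xs_small H.h0 H.h1 0
  have h3 := xs_nonneg σ 0
  have h4 := hh_lo
  have h5 := hh_hi
  rw [le_div_iff₀ hh_pos]
  nlinarith

lemma Q_zero_hi (H : Good R σ) : N.Q 0 ≤ 1 := by
  simp only [Q]
  have h1 := ux_le_one σ 0
  have h3 := xs_nonneg σ 0
  have h4 := hh_lo
  rw [div_le_one hh_pos]
  nlinarith

lemma Q_succ_lo (H : Good R σ) (j : ℕ) : xs σ (j+1) / 3 ≤ N.Q (j+1) := by
  simp only [Q]
  rw [cr_uu]
  have h2 := N.cr_ue_lo H (j+1) (j+1)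
  have h2' := N.cr_ue_hi (σ := σ) (j+1) (j+1)
  have h3 := N.T_half H j
  have h4 := xs_nonneg σ (j+1)
  have h5 := ux_lo' H.h0 H.h1 (j+1)
  have h6 := xs_small H.h0 H.h1 (j+1)
  have h7 := ux_le_one σ j
  rw [le_div_iff₀ (by linarith)]
  have a1 : xs σ (j+1) * (9/10) ≤ xs σ (j+1) * (2 * ux σ (j+1) - ux σ j) :=
    mul_le_mul_of_nonneg_left (by linarith) h4
  have a2 : (1/2) * (xs σ (j+1) * (9/10)) ≤ N.T j * (xs σ (j+1) * (2 * ux σ (j+1) - ux σ j)) :=
    mul_le_mul h3 a1 (by positivity) (by linarith)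
  have a3 : xs σ (j+1) / 3 * cr (uv σ (j+1)) (N.et (j+1)) ≤ xs σ (j+1) / 3 * 1 :=
    mul_le_mul_of_nonneg_left h2' (by positivity)
  linarith

lemma Q_succ_hi (H : Good R σ) (j : ℕ) : N.Q (j+1) ≤ 3 * xs σ (j+1) := by
  simp only [Q]
  rw [cr_uu]
  have h2 := N.cr_ue_lo H (j+1) (j+1)
  have h3 := N.T_le H j
  have h3' := N.T_pos H j
  have h4 := xs_nonneg σ (j+1)
  have h5 := ux_le_one σ (j+1)
  have h7 := ux_nonneg σ j
  have h8 := ux_mono H.h0 H.h1 j
  rw [div_le_iff₀ (by linarith)]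
  have a1 : xs σ (j+1) * (2 * ux σ (j+1) - ux σ j) ≤ xs σ (j+1) * 2 :=
    mul_le_mul_of_nonneg_left (by linarith) h4
  have a0 : 0 ≤ xs σ (j+1) * (2 * ux σ (j+1) - ux σ j) := by
    apply mul_nonneg h4; linarith
  have a2 : N.T j * (xs σ (j+1) * (2 * ux σ (j+1) - ux σ j)) ≤ 1 * (xs σ (j+1) * 2) :=
    mul_le_mul h3 a1 a0 (by norm_num)
  have a3 : 3 * xs σ (j+1) * (99/100) ≤ 3 * xs σ (j+1) * cr (uv σ (j+1)) (N.et (j+1)) :=
    mul_le_mul_of_nonneg_left h2 (by positivity)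
  linarith

lemma Q_pos (H : Good R σ) (j : ℕ) : 0 < N.Q j := by
  rcases j with _ | j
  · have := N.Q_zero_lo H; linarith
  · have h1 := N.Q_succ_lo H j
    have h2 := xs_pos H.h0 (j+1)
    linarith

lemma eqr (H : Good R σ) (j : ℕ) :
    N.Q (j+1) • N.et (j+1) = N.T (j+1) • uv σ (j+1) - N.T j • uv σ j := by
  have h := N.cr_ue_lo H (j+1) (j+1)
  have hne : cr (uv σ (j+1)) (N.et (j+1)) ≠ 0 := by linarith
  simp only [Q, T]
  set d := cr (uv σ (j+1)) (N.et (j+1)) with hd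
  apply Complex.ext
  · simp only [Complex.sub_re, Complex.smul_re, smul_eq_mul]
    rw [div_mul_eq_mul_div, div_mul_eq_mul_div, div_sub' hne, div_left_inj' hne, hd]
    simp only [cr]; ring
  · simp only [Complex.sub_im, Complex.smul_im, smul_eq_mul]
    rw [div_mul_eq_mul_div, div_mul_eq_mul_div, div_sub' hne, div_left_inj' hne, hd]
    simp only [cr]; ring

/-- equilibrium at the corner disc -/
lemma eqcorner : N.Q 0 * dt ew (N.et 0) = N.T 0 * dt ew (uv σ 0) := by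
  have h := hh_pos
  simp only [Q, T, dt, ew_re, ew_im, et_re, et_im, N.t0, N.q0, uv_re, uv_im]
  field_simp
  ring

/-! ### weights above -/

/-- the weights of the upper part, by levels from the top -/
noncomputable def FGA (μ : ℝ) : ℕ → ℕ → ℝ × ℝ
  | 0 => fun j => (cr (N.Q j • N.et j) (N.bv j) / cr (N.av (j+(R-1))) (N.bv j),
      cr (N.av (j+(R-1))) (N.Q j • N.et j) / cr (N.av (j+(R-1))) (N.bv j))
  | (n+1) => fun j =>
    if j = 0 then ((FGA μ n 0).1 - μ / hh / 2, μ / hh) else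
      (cr ((FGA μ n j).1 • N.av (j+(R-1-n)) + (FGA μ n (j-1)).2 • N.bv (j-1)) (N.bv j) /
        cr (N.av (j+(R-1-(n+1)))) (N.bv j),
      cr (N.av (j+(R-1-(n+1)))) ((FGA μ n j).1 • N.av (j+(R-1-n)) +
        (FGA μ n (j-1)).2 • N.bv (j-1)) / cr (N.av (j+(R-1-(n+1)))) (N.bv j))

noncomputable def fA (μ : ℝ) (n j : ℕ) : ℝ := (N.FGA μ n j).1
noncomputable def gA (μ : ℝ) (n j : ℕ) : ℝ := (N.FGA μ n j).2

noncomputable def FA (μ : ℝ) (k j : ℕ) : ℝ := N.fA μ (R-1-k) j
noncomputable def GA (μ : ℝ) (k j : ℕ) : ℝ := N.gA μ (R-1-k) j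

variable (μ : ℝ)

lemma fA_zero (j : ℕ) : N.fA μ 0 j
    = N.Q j * (N.q j * N.c j - N.t j * N.s j) / cr (N.av (j+(R-1))) (N.bv j) := by
  simp only [fA, FGA]
  congr 1
  simp only [cr, Complex.smul_re, Complex.smul_im, smul_eq_mul, et_re, et_im, bv_re, bv_im]
  ring
lemma gA_zero (j : ℕ) : N.gA μ 0 j = N.Q j * (N.c (j+(R-1)) * N.q j + N.s (j+(R-1)) * N.t j)
    / cr (N.av (j+(R-1))) (N.bv j) := by
  simp only [gA, FGA]
  congr 1
  simp only [cr, Complex.smul_re, Complex.smul_im, smul_eq_mul, et_re, et_im, av_re, av_im]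
  ring
lemma fA_col0 (n : ℕ) : N.fA μ (n+1) 0 = N.fA μ n 0 - μ / hh / 2 := by simp [fA, FGA]
lemma gA_col0 (n : ℕ) : N.gA μ (n+1) 0 = μ / hh := by simp [gA, FGA]
lemma fA_succ (n j : ℕ) : N.fA μ (n+1) (j+1)
    = (N.fA μ n (j+1) * cr (N.av (j+1+(R-1-n))) (N.bv (j+1))
        + N.gA μ n j * cr (N.bv j) (N.bv (j+1))) / cr (N.av (j+1+(R-1-(n+1)))) (N.bv (j+1)) := by
  simp only [fA, gA, FGA]
  rw [if_neg (Nat.succ_ne_zero j), Nat.add_sub_cancel]
  simp only [cr_add_left, cr_smul_left]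
lemma gA_succ (n j : ℕ) : N.gA μ (n+1) (j+1)
    = (N.gA μ n j * cr (N.av (j+1+(R-1-(n+1)))) (N.bv j)
        + N.fA μ n (j+1) * cr (N.av (j+1+(R-1-(n+1)))) (N.av (j+1+(R-1-n))))
        / cr (N.av (j+1+(R-1-(n+1)))) (N.bv (j+1)) := by
  simp only [fA, gA, FGA]
  rw [if_neg (Nat.succ_ne_zero j), Nat.add_sub_cancel]
  simp only [cr_add_right, cr_smul_right]
  ring

lemma eqA_R (H : Good R σ) (k : ℕ) (hk : k + 1 = R) (j : ℕ) :
    N.Q j • N.et j = N.low (N.FA μ) (N.GA μ) k j := by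
  have h := N.cr_ge H (j+(R-1)) j
  have hne : cr (N.av (j+(R-1))) (N.bv j) ≠ 0 := by linarith
  have h2 := solve2 (N.av (j+(R-1))) (N.bv j) (N.Q j • N.et j) hne
  unfold low FA GA
  rw [show R - 1 - k = 0 by omega, show j + k = j + (R-1) by omega]
  exact h2.symm

lemma eqA_k (H : Good R σ) (k : ℕ) (hk : k + 1 < R) (j : ℕ) :
    N.up (N.FA μ) (N.GA μ) (fun _ => μ) (k+1) j = N.low (N.FA μ) (N.GA μ) k j := by
  obtain ⟨n, hn⟩ : ∃ n, R - 1 - k = n + 1 := ⟨R - 1 - k - 1, by omega⟩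
  have hn' : R - 1 - (k+1) = n := by omega
  have hk1 : k + 1 = R - 1 - n := by omega
  have hk2 : k = R - 1 - (n+1) := by omega
  unfold up low FA GA
  rw [hn, hn']
  rcases j with _ | j
  · rw [if_pos rfl, fA_col0, gA_col0]
    have h1 := N.c0 (0+(k+1)) (by omega)
    have h2 := N.s0 (0+(k+1)) (by omega)
    have h1' := N.c0 (0+k) (by omega)
    have h2' := N.s0 (0+k) (by omega)
    have h1'' := N.c0 0 H.hR
    have h2'' := N.s0 0 H.hR
    have h3 := hh_sq
    have h4 : hh ≠ 0 := hh_pos.ne'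
    have h5 : μ / hh = μ * hh * (4/3) := by
      rw [div_eq_iff h4]; linear_combination (-(4/3) * μ) * h3
    rw [h5]
    apply Complex.ext
    · simp only [Complex.add_re, Complex.smul_re, smul_eq_mul, av_re, bv_re, Complex.neg_re, nw_re,
        h1, h1', h1'']
      ring
    · simp only [Complex.add_im, Complex.smul_im, smul_eq_mul, av_im, bv_im, Complex.neg_im, nw_im,
        h2, h2', h2'']
      linear_combination (-(2/3) * μ) * h3
  · rw [if_neg (Nat.succ_ne_zero j), Nat.add_sub_cancel, fA_succ, gA_succ]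
    rw [hk1]
    rw [show j + 1 + k = j + 1 + (R-1-(n+1)) by omega]
    have h := N.cr_ge H (j+1+(R-1-(n+1))) (j+1)
    have hne : cr (N.av (j+1+(R-1-(n+1)))) (N.bv (j+1)) ≠ 0 := by linarith
    have h2 := solve2 (N.av (j+1+(R-1-(n+1)))) (N.bv (j+1))
      (N.fA μ n (j+1) • N.av (j+1+(R-1-n)) + N.gA μ n j • N.bv j) hne
    rw [cr_add_left, cr_smul_left, cr_smul_left, cr_add_right, cr_smul_right, cr_smul_right] at h2
    rw [← h2, add_comm (N.fA μ n (j+1) * cr (N.av (j+1+(R-1-(n+1)))) (N.av (j+1+(R-1-n))))]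

/-- magnitude of the force arriving along a `b`-line -/
noncomputable def Src (n j : ℕ) : ℝ := if j < n then μ else N.Q (j-n)

lemma Src_zero (j : ℕ) : N.Src μ 0 j = N.Q j := by simp [Src]
lemma Src_succ (n j : ℕ) : N.Src μ (n+1) (j+1) = N.Src μ n j := by
  simp [Src]
lemma Src_col0 (n : ℕ) : N.Src μ (n+1) 0 = μ := by simp [Src]

lemma Src_pos (H : Good R σ) (hμ : 0 < μ) (n j : ℕ) : 0 < N.Src μ n j := by
  unfold Src; split_ifs
  · exact hμ
  · exact N.Q_pos H _

lemma Q_le_Src (H : Good R σ) (hμ : 3 * σ^2 ≤ μ) (n j : ℕ) :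
    N.Q (j+1) ≤ 9 * N.Src μ n j := by
  have h1 := N.Q_succ_hi H j
  have h2 := xs_le σ (j+1)
  have h0 : 0 ≤ σ^2 := sq_nonneg σ
  unfold Src
  split_ifs with h
  · linarith
  · rcases Nat.eq_zero_or_pos (j-n) with h3 | h3
    · rw [h3]
      have h4 := N.Q_zero_lo H
      have h5 := H.a_small
      linarith
    · obtain ⟨i, hi⟩ : ∃ i, j - n = i + 1 := ⟨j-n-1, by omega⟩
      rw [hi]
      have h4 := N.Q_succ_lo H i
      have h5 := xs_anti σ (show i + 1 ≤ j + 1 by omega)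
      linarith

lemma Src_le_Q (H : Good R σ) (n j : ℕ) (hn : n + 1 < R) (hj : R ≤ j + 1) :
    N.Src μ n j ≤ 9 * 2 ^ R * N.Q (j+1) := by
  unfold Src
  rw [if_neg (by omega)]
  obtain ⟨i, hi⟩ : ∃ i, j - n = i + 1 := ⟨j-n-1, by omega⟩
  rw [hi]
  have h1 := N.Q_succ_hi H i
  have h2 := N.Q_succ_lo H j
  have h3 := xs_add σ (i+1) (n+1)
  rw [show i + 1 + (n+1) = j + 2 - 1 by omega, show j + 2 - 1 = j + 1 by omega] at h3
  have h4 : (2:ℝ)^(n+1) ≤ 2^R := pow_le_pow_right₀ (by norm_num) (by omega)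
  have h5 := xs_nonneg σ (j+1)
  have h6 : (2:ℝ)^(n+1) * xs σ (j+1) ≤ 2^R * xs σ (j+1) := mul_le_mul_of_nonneg_right h4 h5
  have h7 : (2:ℝ)^R * (xs σ (j+1) / 3) ≤ 2^R * N.Q (j+1) :=
    mul_le_mul_of_nonneg_left h2 (by positivity)
  linarith

lemma boundA (H : Good R σ) (hμ : 3 * σ^2 ≤ μ) (hμ0 : 0 < μ) (n : ℕ) (hn : n < R) :
    (∀ j, (1/2 - n * (160 * σ^2 * 2^R)) * N.Q (j+1) ≤ N.fA μ n (j+1) ∧
      N.fA μ n (j+1) ≤ (2/3 + n * (160 * σ^2 * 2^R)) * N.Q (j+1)) ∧
    (∀ j, (1/2 - n * (160 * σ^2 * 2^R)) * N.Src μ n j ≤ N.gA μ n j ∧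
      N.gA μ n j ≤ (5/4 + n * (160 * σ^2 * 2^R)) * N.Src μ n j) := by
  have ha : 0 ≤ σ^2 := sq_nonneg σ
  have hsm := H.a_small
  have h2R : (1:ℝ) ≤ 2 ^ R := one_le_pow₀ (by norm_num)
  induction n with
  | zero =>
    have t1 := N.tnn
    have hσ := H.h1
    constructor
    · intro j
      rw [fA_zero]
      have hQ := N.Q_pos H (j+1)
      have h1 := N.cr_ge H (j+1+(R-1)) (j+1)
      have h1' := N.cr_lo H (j+1+(R-1)) (j+1)
      have h1'' := N.cr_hi H (j+1+(R-1)) (j+1)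
      have h2 := N.clo (j+1)
      have h3 := N.c_hi H.hR H.h0 H.h1 (j+1)
      have h4 := N.q_lo (j+1)
      have h5 := N.q_le (j+1)
      have h6 := N.s_le (j+1)
      have h7 := N.snn (j+1)
      have h8 := N.t_hi H.h0 (j+1)
      have h9 := N.tnn (j+1)
      have h10 := hh_hi
      have h11 := hh_lo
      have b1 : N.t (j+1) * N.s (j+1) ≤ (2/100) * hh := by
        apply mul_le_mul (by linarith) h6 h7 (by norm_num)
      have b2 : 0 ≤ N.t (j+1) * N.s (j+1) := mul_nonneg h9 h7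
      have b3 : (1 - 2/10000) * (1/2) ≤ N.q (j+1) * N.c (j+1) :=
        mul_le_mul (by linarith) h2 (by norm_num) (N.qnn _)
      have b4 : N.q (j+1) * N.c (j+1) ≤ 1 * (1/2 + 4/10000) :=
        mul_le_mul h5 (by linarith) (by linarith) (by norm_num)
      simp only [CharP.cast_eq_zero, zero_mul, sub_zero, add_zero]
      constructor
      · rw [le_div_iff₀ (by linarith)]
        have c1 : (1/2 : ℝ) * cr (N.av (j+1+(R-1))) (N.bv (j+1))
            ≤ N.q (j+1) * N.c (j+1) - N.t (j+1) * N.s (j+1) := by linarith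
        have := mul_le_mul_of_nonneg_left c1 hQ.le
        linarith
      · rw [div_le_iff₀ (by linarith)]
        have c1 : N.q (j+1) * N.c (j+1) - N.t (j+1) * N.s (j+1)
            ≤ (2/3 : ℝ) * cr (N.av (j+1+(R-1))) (N.bv (j+1)) := by linarith
        have := mul_le_mul_of_nonneg_left c1 hQ.le
        linarith
    · intro j
      rw [gA_zero, Src_zero]
      have hQ := N.Q_pos H j
      have h1 := N.cr_ge H (j+(R-1)) j
      have h1' := N.cr_lo H (j+(R-1)) j
      have h1'' := N.cr_hi H (j+(R-1)) j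
      have h2 := N.clo (j+(R-1))
      have h3 := N.c_hi H.hR H.h0 H.h1 (j+(R-1))
      have h4 := N.q_lo j
      have h5 := N.q_le j
      have h6 := N.s_le (j+(R-1))
      have h7 := N.snn (j+(R-1))
      have h8 := N.t_hi H.h0 j
      have h9 := N.tnn j
      have h10 := hh_hi
      have h11 := hh_lo
      have b1 : N.s (j+(R-1)) * N.t j ≤ hh * (2/100) := by
        apply mul_le_mul h6 (by linarith) h9 (by linarith)
      have b2 : 0 ≤ N.s (j+(R-1)) * N.t j := mul_nonneg h7 h9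
      have b3 : (1/2) * (1 - 2/10000) ≤ N.c (j+(R-1)) * N.q j :=
        mul_le_mul h2 (by linarith) (by norm_num) (by linarith)
      have b4 : N.c (j+(R-1)) * N.q j ≤ (1/2 + 4/10000) * 1 :=
        mul_le_mul (by linarith) h5 (N.qnn _) (by norm_num)
      simp only [CharP.cast_eq_zero, zero_mul, sub_zero, add_zero]
      constructor
      · rw [le_div_iff₀ (by linarith)]
        have c1 : (1/2 : ℝ) * cr (N.av (j+(R-1))) (N.bv j)
            ≤ N.c (j+(R-1)) * N.q j + N.s (j+(R-1)) * N.t j := by linarith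
        have := mul_le_mul_of_nonneg_left c1 hQ.le
        linarith
      · rw [div_le_iff₀ (by linarith)]
        have c1 : N.c (j+(R-1)) * N.q j + N.s (j+(R-1)) * N.t j
            ≤ (5/4 : ℝ) * cr (N.av (j+(R-1))) (N.bv j) := by linarith
        have := mul_le_mul_of_nonneg_left c1 hQ.le
        linarith
  | succ n ih =>
    obtain ⟨ihF, ihG⟩ := ih (by omega)
    have hnR : (n:ℝ) * (160 * σ^2 * 2^R) ≤ 1/10 := by
      have h1 := H.aR2
      have h2 : (n:ℝ) ≤ R := by exact_mod_cast (by omega : n ≤ R)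
      have h3 : (n:ℝ) * (160 * σ^2 * 2^R) ≤ R * (160 * σ^2 * 2^R) :=
        mul_le_mul_of_nonneg_right h2 (by positivity)
      nlinarith
    have hnn : 0 ≤ (n:ℝ) * (160 * σ^2 * 2^R) := by positivity
    have Fb : ∀ j, 0 ≤ N.fA μ n (j+1) ∧ N.fA μ n (j+1) ≤ N.Q (j+1) := fun j => by
      have hQ := N.Q_pos H (j+1)
      have := ihF j
      constructor
      · exact le_trans (mul_nonneg (by linarith) hQ.le) this.1
      · apply le_trans this.2
        have : (2/3 + n * (160 * σ^2 * 2^R)) * N.Q (j+1) ≤ 1 * N.Q (j+1) :=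
          mul_le_mul_of_nonneg_right (by linarith) hQ.le
        linarith
    have Gb : ∀ j, 0 ≤ N.gA μ n j ∧ N.gA μ n j ≤ 2 * N.Src μ n j := fun j => by
      have hQ := N.Src_pos μ H hμ0 n j
      have := ihG j
      constructor
      · exact le_trans (mul_nonneg (by linarith) hQ.le) this.1
      · apply le_trans this.2
        exact mul_le_mul_of_nonneg_right (by linarith) hQ.le
    constructor
    · intro j
      have hQ := N.Q_pos H (j+1)
      have key : |N.fA μ (n+1) (j+1) - N.fA μ n (j+1)| ≤ 160 * σ^2 * 2^R * N.Q (j+1) := by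
        rcases Nat.lt_or_ge (j+1) R with hj | hj
        · -- the b direction does not change
          have h1 := ratio_bound (N.cr_ge H (j+1+(R-1-(n+1))) (j+1)) (Fb j).1 (Fb j).2
            (le_refl (0:ℝ)) (le_refl (0:ℝ))
            (N.cr_dd H (j+1+(R-1-n)) (j+1) (j+1+(R-1-(n+1))) (j+1)) (N.cr_bb H j (j+1)) ha
          have e : N.fA μ (n+1) (j+1) = (N.fA μ n (j+1) * cr (N.av (j+1+(R-1-n))) (N.bv (j+1))
              + 0 * cr (N.bv j) (N.bv (j+1))) / cr (N.av (j+1+(R-1-(n+1)))) (N.bv (j+1)) := by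
            rw [fA_succ, N.cr_bb0 (by omega : j < R) hj]; ring
          rw [← e] at h1
          have h2 : 12 * σ^2 * N.Q (j+1) ≤ 160 * σ^2 * 2^R * N.Q (j+1) := by
            apply mul_le_mul_of_nonneg_right _ hQ.le
            nlinarith
          linarith
        · have h1 := ratio_bound (N.cr_ge H (j+1+(R-1-(n+1))) (j+1)) (Fb j).1 (Fb j).2
            (Gb j).1 (Gb j).2
            (N.cr_dd H (j+1+(R-1-n)) (j+1) (j+1+(R-1-(n+1))) (j+1)) (N.cr_bb H j (j+1)) ha
          rw [← fA_succ] at h1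
          have h3 := N.Src_le_Q μ H n j hn hj
          have h4 : 7 * σ^2 * (2 * N.Src μ n j) ≤ 7 * σ^2 * (2 * (9 * 2 ^ R * N.Q (j+1))) := by
            apply mul_le_mul_of_nonneg_left _ (by positivity)
            linarith
          have h2 : 12 * σ^2 * N.Q (j+1) ≤ 12 * σ^2 * 2^R * N.Q (j+1) := by
            apply mul_le_mul_of_nonneg_right _ hQ.le
            nlinarith
          have h5 : 0 ≤ σ^2 * 2^R * N.Q (j+1) := by positivity
          linarith
      have h2 := abs_le.1 key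
      have h3 := ihF j
      push_cast
      constructor <;> linarith
    · intro j
      rcases j with _ | j
      · rw [gA_col0, Src_col0]
        have h4 := hh_pos
        have h5 := hh_hi
        have h6 := hh_lo
        have e1 : μ ≤ μ / hh := by rw [le_div_iff₀ h4]; nlinarith
        have e2 : μ / hh ≤ 5/4 * μ := by rw [div_le_iff₀ h4]; nlinarith
        have e3 : 0 ≤ ((n+1 : ℕ):ℝ) * (160 * σ^2 * 2^R) := by positivity
        constructor <;> nlinarith
      · have hS := N.Src_pos μ H hμ0 n j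
        rw [Src_succ]
        have h1 := ratio_bound (N.cr_ge H (j+1+(R-1-(n+1))) (j+1)) (Gb j).1 (Gb j).2
            (Fb j).1 (Fb j).2
            (N.cr_dd H (j+1+(R-1-(n+1))) j (j+1+(R-1-(n+1))) (j+1))
            (N.cr_aa H (j+1+(R-1-(n+1))) (j+1+(R-1-n))) ha
        rw [← gA_succ] at h1
        have h3 := N.Q_le_Src μ H hμ n j
        have h4 : 7 * σ^2 * N.Q (j+1) ≤ 7 * σ^2 * (9 * N.Src μ n j) := by
          apply mul_le_mul_of_nonneg_left h3 (by positivity)
        have h5 : 12 * σ^2 * (2 * N.Src μ n j) + 7 * σ^2 * N.Q (j+1)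
            ≤ 160 * σ^2 * 2^R * N.Src μ n j := by
          have : 0 ≤ σ^2 * N.Src μ n j := by positivity
          have h6 : σ^2 * N.Src μ n j * 1 ≤ σ^2 * N.Src μ n j * 2^R :=
            mul_le_mul_of_nonneg_left h2R this
          linarith
        have h2 := abs_le.1 h1
        have h3 := ihG j
        push_cast
        constructor <;> linarith

/-- the small wall force -/
noncomputable def mu (R : ℕ) : ℝ := 1 / (8 * R)

lemma mu_pos (H : Good R σ) : 0 < mu R := by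
  unfold mu
  have : (0:ℝ) < R := by exact_mod_cast H.hR
  positivity

lemma mu_lo (H : Good R σ) : 3 * σ^2 ≤ mu R := by
  unfold mu
  have h : (0:ℝ) < R := by exact_mod_cast H.hR
  rw [le_div_iff₀ (by positivity)]
  have := H.aR
  nlinarith

lemma fA_col0_lo (H : Good R σ) (n : ℕ) (hn : n < R) : 1/4 - n * mu R ≤ N.fA (mu R) n 0 := by
  induction n with
  | zero =>
    rw [fA_zero]
    have h1 := N.Q_zero_lo H
    have h2 := N.cr_ge H (0+(R-1)) 0
    have h3 := N.cr_hi H (0+(R-1)) 0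
    have h4 := hh_hi
    have h5 := H.a_small
    rw [N.t0, N.q0, N.c0 0 H.hR]
    simp only [CharP.cast_eq_zero, zero_mul, sub_zero]
    rw [le_div_iff₀ (by linarith)]
    linarith
  | succ n ih =>
    rw [fA_col0]
    have h1 := ih (by omega)
    have h2 := mu_pos H
    have h3 := hh_lo
    have h4 : mu R / hh / 2 ≤ mu R := by
      rw [div_div, div_le_iff₀ (by linarith)]
      nlinarith
    push_cast
    linarith

lemma FA_pos (H : Good R σ) (k : ℕ) (hk : k < R) (j : ℕ) : 0 < N.FA (mu R) k j := by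
  unfold FA
  have hμ := mu_pos H
  rcases j with _ | j
  · have h1 := N.fA_col0_lo H (R-1-k) (by omega)
    have h : (0:ℝ) < R := by exact_mod_cast H.hR
    have h2 : ((R-1-k : ℕ):ℝ) ≤ R := by exact_mod_cast (by omega : R-1-k ≤ R)
    have h3 : ((R-1-k : ℕ):ℝ) * mu R ≤ R * mu R := mul_le_mul_of_nonneg_right h2 hμ.le
    have h4 : (R:ℝ) * mu R = 1/8 := by unfold mu; field_simp
    linarith
  · have h1 := ((N.boundA (mu R) H (mu_lo H) hμ (R-1-k) (by omega)).1 j).1
    have h2 := N.Q_pos H (j+1)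
    have h3 : ((R-1-k : ℕ):ℝ) * (160 * σ^2 * 2^R) ≤ 1/4 := by
      have h1 := H.aR2
      have h2 : ((R-1-k : ℕ):ℝ) ≤ R := by exact_mod_cast (by omega : R-1-k ≤ R)
      have h3 : ((R-1-k : ℕ):ℝ) * (160 * σ^2 * 2^R) ≤ R * (160 * σ^2 * 2^R) :=
        mul_le_mul_of_nonneg_right h2 (by positivity)
      nlinarith
    have h4 : 0 < (1/2 - ((R-1-k : ℕ):ℝ) * (160 * σ^2 * 2^R)) * N.Q (j+1) :=
      mul_pos (by linarith) h2
    linarith

lemma GA_pos (H : Good R σ) (k : ℕ) (hk : k < R) (j : ℕ) : 0 < N.GA (mu R) k j := by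
  unfold GA
  have hμ := mu_pos H
  have h1 := ((N.boundA (mu R) H (mu_lo H) hμ (R-1-k) (by omega)).2 j).1
  have h2 := N.Src_pos (mu R) H hμ (R-1-k) j
  have h3 : ((R-1-k : ℕ):ℝ) * (160 * σ^2 * 2^R) ≤ 1/4 := by
    have h1 := H.aR2
    have h2 : ((R-1-k : ℕ):ℝ) ≤ R := by exact_mod_cast (by omega : R-1-k ≤ R)
    have h3 : ((R-1-k : ℕ):ℝ) * (160 * σ^2 * 2^R) ≤ R * (160 * σ^2 * 2^R) :=
      mul_le_mul_of_nonneg_right h2 (by positivity)
    nlinarith
  have h4 : 0 < (1/2 - ((R-1-k : ℕ):ℝ) * (160 * σ^2 * 2^R)) * N.Src (mu R) (R-1-k) j :=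
    mul_pos (by linarith) h2
  linarith

end Net

end Pool.Agent.H30.CB
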